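import Mathlib

/-!
# Generic points and centres
-/

open AlgebraicGeometry CategoryTheory

namespace Pool.Agent.LU1G

/-- `η : Spec K ⟶ X` is the generic point of `X`, with `K` identified with the function field. -/
def IsGen {K : Type} [Field K] {X : Scheme.{0}} [IsIntegral X]
    (η : Spec (CommRingCat.of K) ⟶ X) : Prop :=
  ∃ e : X.functionField ≃+* K,
    η = Spec.map (CommRingCat.ofHom e.toRingHom) ≫ X.fromSpecStalk (genericPoint X)

/-- The closed point of the spectrum of a valuation ring. -/
noncomputable abbrev cpt {K : Type} [Field K] (V : ValuationSubring K) :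
    Spec (CommRingCat.of V) := IsLocalRing.closedPoint V

/-- The inclusion `Spec K ⟶ Spec V`. -/
noncomputable abbrev incV {K : Type} [Field K] (V : ValuationSubring K) :
    Spec (CommRingCat.of K) ⟶ Spec (CommRingCat.of V) :=
  Spec.map (CommRingCat.ofHom (algebraMap V K))

/-- The morphism `h` is smooth at the point `y`. -/
def SmoothAt {Y S : Scheme.{0}} (h : Y ⟶ S) (y : Y) : Prop :=
  ∃ U : Y.Opens, y ∈ U ∧ Smooth (U.ι ≫ h)

end Pool.Agent.LU1G
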