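import Pool.Agent.Lib.MP_b525bf_ag.Proj
import Pool.Agent.Lib.LU1G.Setup

/-!
# GB: the blowing up of an affine scheme and the centre of a valuation on it
-/

set_option autoImplicit false

open AlgebraicGeometry CategoryTheory

namespace Pool.Agent.LU1G

open Pool.Agent.MP_b525bf_ag HomogeneousLocalization

/-- A morphism is smooth at the points of the range of an open immersion along which it is
smooth. -/
lemma smoothAt_of_factor {Y S T : Scheme.{0}} (h : Y ⟶ S) (j : T ⟶ Y) [IsOpenImmersion j]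
    (hj : Smooth (j ≫ h)) (y : T) : SmoothAt h (j y) := by
  refine ⟨j.opensRange, ⟨y, rfl⟩, ?_⟩
  rw [← Scheme.Hom.isoOpensRange_inv_comp, Category.assoc]
  exact MorphismProperty.comp_mem (W := @AlgebraicGeometry.Smooth) _ _ inferInstance hj

/-- The powers of an ideal. -/
def powFam {A : Type} [CommRing A] (I : Ideal A) : IdealFam A where
  I n := I ^ n
  zero' := by rw [pow_zero, Ideal.one_eq_top]
  mul' m n := (pow_add I m n).symm.le

lemma powFam_fg {A : Type} [CommRing A] (I : Ideal A) (hI : I.FG) :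
    Algebra.FiniteType A (powFam I).rees := by
  have h : (powFam I).rees = reesAlgebra I := rfl
  rw [h]
  exact ⟨(reesAlgebra I).fg_top.mpr (reesAlgebra.fg hI)⟩

section

variable {k A K : Type} [Field k] [CommRing A] [Algebra k A]
    [Field K] [Algebra A K] [Algebra k K] [IsScalarTower k A K]

lemma psi_chartHom (F : IdealFam A) {n : ℕ} {x : A} (hx : x ∈ F.I n) (h0 : algebraMap A K x ≠ 0)
    (a : A) : F.psi hx h0 (F.chartHom hx a) = algebraMap A K a := by
  have hm : a ∈ F.I (0 • n) := by rw [zero_smul]; exact F.mem_zero _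
  have h1 := F.psi_mk (K := K) hx h0 0 (F.mono (0 • n) a hm) (F.mono_mem _ _ _)
  rw [pow_zero, mul_one] at h1
  have h2 : Away.mk F.grade (F.mono_mem n x hx) 0 (F.mono (0 • n) a hm) (F.mono_mem _ _ _) =
      F.chartHom hx a := by
    have h3 := F.chartHom_mul_mk hx 0 (F.mono (0 • n) a hm) (F.mono_mem _ _ _)
    rw [pow_zero, map_one] at h3
    refine (one_mul (M := Away F.grade (F.mono n x hx)) _).symm.trans (h3.trans ?_)
    simp
  rw [h2] at h1
  rw [h1]
  simp

/-- The generators of the chart. -/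
def gens (A K : Type) [CommRing A] [Field K] [Algebra A K] (I : Ideal A) (g : A) : Set K :=
  {z | ∃ x ∈ I, z = algebraMap A K x / algebraMap A K g}

omit [Algebra k A] [IsScalarTower k A K] in
variable (k) in
lemma algebraMap_mem_adjoin (I : Ideal A) {g : A} (hg : g ∈ I) (h0 : algebraMap A K g ≠ 0)
    (a : A) : algebraMap A K a ∈ Algebra.adjoin k (gens A K I g) := by
  refine Algebra.subset_adjoin ⟨a * g, I.mul_mem_left a hg, ?_⟩
  rw [map_mul, mul_div_assoc, div_self h0, mul_one]

omit [Algebra k A] [IsScalarTower k A K] in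
variable (k) in
lemma div_pow_mem_adjoin (I : Ideal A) {g : A} (hg : g ∈ I) (h0 : algebraMap A K g ≠ 0)
    (m : ℕ) : ∀ y ∈ I ^ m, algebraMap A K y / algebraMap A K g ^ m ∈
      Algebra.adjoin k (gens A K I g) := by
  induction m with
  | zero =>
    intro y _
    rw [pow_zero, div_one]
    exact algebraMap_mem_adjoin k I hg h0 y
  | succ m ih =>
    intro y hy
    rw [pow_succ] at hy
    refine Submodule.mul_induction_on hy ?_ ?_
    · intro a ha b hb
      rw [map_mul, pow_succ, mul_div_mul_comm]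
      exact mul_mem (ih a ha) (Algebra.subset_adjoin ⟨b, hb, rfl⟩)
    · intro a b ha hb
      rw [map_add, add_div]
      exact add_mem ha hb

lemma chart_eq (I : Ideal A) {g : A} (hg : g ∈ (powFam I).I 1) (h0 : algebraMap A K g ≠ 0) :
    (powFam I).chart k K hg = Algebra.adjoin k (gens A K I g) := by
  have hg' : g ∈ I := by
    have h : g ∈ I ^ 1 := hg
    rwa [pow_one] at h
  apply le_antisymm
  · rintro z ⟨m, y, hy, h⟩
    have hy' : y ∈ I ^ (m * 1) := hy
    rw [mul_one] at hy'
    have h1 : z = algebraMap A K y / algebraMap A K g ^ m := by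
      rw [← h, mul_div_assoc, div_self (pow_ne_zero m h0), mul_one]
    rw [h1]
    exact div_pow_mem_adjoin k I hg' h0 m y hy'
  · apply Algebra.adjoin_le
    rintro z ⟨x, hx, rfl⟩
    refine ⟨1, x, ?_, ?_⟩
    · change x ∈ I ^ (1 * 1)
      rwa [mul_one, pow_one]
    · rw [pow_one, div_mul_cancel₀ _ h0]

/-- Elements of the localised chart become elements of the chart after multiplication by a power
of `t`. -/
lemma exists_mul_pow_mem (X : Set K) (t : K) (ht : t ∈ Algebra.adjoin k X) (ht0 : t ≠ 0)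
    (z : K) (hz : z ∈ Algebra.adjoin k (X ∪ {t⁻¹})) :
    ∃ n : ℕ, z * t ^ n ∈ Algebra.adjoin k X := by
  induction hz using Algebra.adjoin_induction with
  | mem z hz =>
    rcases hz with hz | hz
    · exact ⟨0, by rw [pow_zero, mul_one]; exact Algebra.subset_adjoin hz⟩
    · refine ⟨1, ?_⟩
      rw [Set.mem_singleton_iff.mp hz, pow_one, inv_mul_cancel₀ ht0]
      exact one_mem _
  | algebraMap r => exact ⟨0, by rw [pow_zero, mul_one]; exact Subalgebra.algebraMap_mem _ r⟩
  | add a b _ _ ha hb =>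
    obtain ⟨n, hn⟩ := ha
    obtain ⟨m, hm⟩ := hb
    refine ⟨n + m, ?_⟩
    have h : (a + b) * t ^ (n + m) = (a * t ^ n) * t ^ m + (b * t ^ m) * t ^ n := by ring
    rw [h]
    exact add_mem (mul_mem hn (pow_mem ht m)) (mul_mem hm (pow_mem ht n))
  | mul a b _ _ ha hb =>
    obtain ⟨n, hn⟩ := ha
    obtain ⟨m, hm⟩ := hb
    refine ⟨n + m, ?_⟩
    have h : (a * b) * t ^ (n + m) = (a * t ^ n) * (b * t ^ m) := by ring
    rw [h]
    exact mul_mem hn hm

end

theorem blow_chart (k A K : Type) [Field k] [CommRing A] [IsDomain A] [Algebra k A]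
    [Algebra.FiniteType k A] [Field K] [Algebra A K] [Algebra k K] [IsScalarTower k A K]
    [IsFractionRing A K] (V : ValuationSubring K) (hAV : ∀ a : A, algebraMap A K a ∈ V)
    (I : Ideal A) (g : A) (hg : g ∈ I) (hg0 : g ≠ 0)
    (hV : ∀ x ∈ I, algebraMap A K x / algebraMap A K g ∈ V) (t : K)
    (ht : t ∈ Algebra.adjoin k ({z | ∃ x ∈ I, z = algebraMap A K x / algebraMap A K g} : Set K))
    (ht0 : t ≠ 0) (ht1 : t⁻¹ ∈ V)
    (hsm : Algebra.Smooth k (Algebra.adjoin k
      ({z | ∃ x ∈ I, z = algebraMap A K x / algebraMap A K g} ∪ {t⁻¹} : Set K))) :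
    ∃ (Z : Scheme.{0}) (π : Z ⟶ Spec (CommRingCat.of A)), IsIntegral Z ∧ IsProper π ∧
      (∀ x ∈ I, x ≠ 0 → IsIso (π ∣_ (PrimeSpectrum.basicOpen x))) ∧
      ∃ c' : Spec (CommRingCat.of V) ⟶ Z,
        c' ≫ π = Spec.map (CommRingCat.ofHom ((algebraMap A K).codRestrict V hAV)) ∧
        SmoothAt (π ≫ Spec.map (CommRingCat.ofHom (algebraMap k A))) (c' (cpt V)) := by
  have hinj : Function.Injective (algebraMap A K) := IsFractionRing.injective A K
  have hK0 : algebraMap A K g ≠ 0 := fun h => hg0 (hinj (by rw [h, map_zero]))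
  have hnoeth : IsNoetherianRing A := Algebra.FiniteType.isNoetherianRing k A
  let F : IdealFam A := powFam I
  have hmem : ∀ x ∈ I, x ∈ F.I 1 := by
    intro x hx
    change x ∈ I ^ 1
    rwa [pow_one]
  have hg1 : g ∈ F.I 1 := hmem g hg
  have hchart : F.chart k K hg1 = Algebra.adjoin k (gens A K I g) := chart_eq I hg1 hK0
  let S : Subalgebra k K := Algebra.adjoin k (gens A K I g ∪ {t⁻¹})
  have hCS : F.chart k K hg1 ≤ S := by
    rw [hchart]
    exact Algebra.adjoin_mono Set.subset_union_left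
  have hkV : ∀ c : k, algebraMap k K c ∈ V := by
    intro c
    rw [IsScalarTower.algebraMap_apply k A K]
    exact hAV _
  have hSV : ∀ z ∈ S, z ∈ V := by
    intro z hz
    induction hz using Algebra.adjoin_induction with
    | mem z hz =>
      rcases hz with ⟨x, hx, rfl⟩ | hz
      · exact hV x hx
      · rw [Set.mem_singleton_iff.mp hz]
        exact ht1
    | algebraMap r => exact hkV r
    | add a b _ _ ha hb => exact add_mem ha hb
    | mul a b _ _ ha hb => exact mul_mem ha hb
  -- the ring homomorphism from the chart ring of `Proj` to `S`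
  let φ : Away F.grade (F.mono 1 g hg1) →+* S :=
    (F.psi hg1 hK0).codRestrict S (fun z => hCS (F.psi_mem_chart hg1 hK0 z))
  have hφ : ∀ z, ((φ z : S) : K) = F.psi hg1 hK0 z := fun z => rfl
  obtain ⟨w, hw⟩ := F.exists_psi (k := k) hg1 hK0 (z := t) (by rw [hchart]; exact ht)
  let _ : Algebra (Away F.grade (F.mono 1 g hg1)) S := φ.toAlgebra
  have hinv : t⁻¹ ∈ S := Algebra.subset_adjoin (Or.inr rfl)
  have hloc : IsLocalization.Away w S := by
    refine (isLocalization_iff _ _).mpr ⟨?_, ?_, ?_⟩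
    · rintro ⟨_, n, rfl⟩
      have h1 : IsUnit (φ w) := by
        refine IsUnit.of_mul_eq_one ⟨t⁻¹, hinv⟩ ?_
        apply Subtype.ext
        change F.psi hg1 hK0 w * t⁻¹ = 1
        rw [hw, mul_inv_cancel₀ ht0]
      have h2 := h1.pow n
      rw [← map_pow φ w n] at h2
      exact h2
    · intro z
      obtain ⟨n, hn⟩ := exists_mul_pow_mem (gens A K I g) t ht ht0 (z : K) z.2
      obtain ⟨u, hu⟩ := F.exists_psi (k := k) hg1 hK0 (z := (z : K) * t ^ n)
        (by rw [hchart]; exact hn)
      refine ⟨(u, ⟨w ^ n, n, rfl⟩), ?_⟩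
      apply Subtype.ext
      refine Eq.trans ?_ hu.symm
      rw [← hw, ← map_pow (F.psi hg1 hK0) w n]
      rfl
    · intro a b hab
      refine ⟨1, ?_⟩
      have h : F.psi hg1 hK0 a = F.psi hg1 hK0 b := congrArg Subtype.val hab
      rw [F.psi_injective hg1 hinj hK0 h]
  have hop : IsOpenImmersion (Spec.map (CommRingCat.ofHom φ)) :=
    IsOpenImmersion.of_isLocalization (R := Away F.grade (F.mono 1 g hg1)) (S := S) w
  have hop2 : IsOpenImmersion (Spec.map (CommRingCat.ofHom φ) ≫ F.chartι one_pos hg1) :=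
    inferInstance
  let ρ : S →+* V :=
    { toFun := fun z => ⟨z, hSV z z.2⟩
      map_one' := rfl
      map_zero' := rfl
      map_add' := fun _ _ => rfl
      map_mul' := fun _ _ => rfl }
  refine ⟨F.Bl, F.blMap, F.isIntegral_bl one_pos hg1 hg0,
    F.isProper_blMap (powFam_fg I (IsNoetherian.noetherian I)),
    fun x hx h0 => F.isIso_restrict one_pos (hmem x hx) h0,
    Spec.map (CommRingCat.ofHom ρ) ≫ Spec.map (CommRingCat.ofHom φ) ≫ F.chartι one_pos hg1, ?_, ?_⟩
  · rw [Category.assoc, Category.assoc, F.chartι_comp, ← Spec.map_comp, ← Spec.map_comp]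
    congr 1
    refine CommRingCat.hom_ext (RingHom.ext fun a => ?_)
    apply Subtype.ext
    exact psi_chartHom F hg1 hK0 a
  · have hsmooth : AlgebraicGeometry.Smooth ((Spec.map (CommRingCat.ofHom φ) ≫
        F.chartι one_pos hg1) ≫ F.blMap ≫ Spec.map (CommRingCat.ofHom (algebraMap k A))) := by
      have h1 : (Spec.map (CommRingCat.ofHom φ) ≫
          F.chartι one_pos hg1) ≫ F.blMap ≫ Spec.map (CommRingCat.ofHom (algebraMap k A)) =
          Spec.map (CommRingCat.ofHom (algebraMap k S)) := by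
        rw [Category.assoc, ← Category.assoc (F.chartι one_pos hg1), F.chartι_comp,
          ← Spec.map_comp, ← Spec.map_comp]
        congr 1
        refine CommRingCat.hom_ext (RingHom.ext fun c => ?_)
        apply Subtype.ext
        change F.psi hg1 hK0 (F.chartHom hg1 (algebraMap k A c)) = algebraMap k K c
        rw [psi_chartHom F hg1 hK0, ← IsScalarTower.algebraMap_apply]
      rw [h1, HasRingHomProperty.Spec_iff (P := @AlgebraicGeometry.Smooth)]
      exact RingHom.smooth_algebraMap.mpr hsm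
    exact smoothAt_of_factor _ _ hsmooth (Spec.map (CommRingCat.ofHom ρ) (cpt V))

end Pool.Agent.LU1G
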