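import Mathlib

/-!
# Almost Abhyankar valuations of the function field of a variety
-/

open AlgebraicGeometry CategoryTheory
open scoped NNReal

namespace Pool.Agent.LU1G

/-- The inclusion of `k` in the function field of an integral scheme `X` over `k`. -/
noncomputable def constHom {k : Type} [Field k] {X : Scheme.{0}} [IsIntegral X]
    (f : X ⟶ Spec (CommRingCat.of k)) : k →+* X.functionField :=
  (Spec.preimage (X.fromSpecStalk (genericPoint X) ≫ f)).hom

/-- `v` is a real valuation of the function field of `X` over `k` that is trivial on `k`, has
residue field `k`, and whose value group has rational rank one less than the transcendence degree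
of the function field over `k`. -/
structure IsAlmostAbhyankar {k : Type} [Field k] {X : Scheme.{0}} [IsIntegral X]
    (f : X ⟶ Spec (CommRingCat.of k)) (v : Valuation X.functionField ℝ≥0) : Prop where
  const : ∀ c : k, c ≠ 0 → v (constHom f c) = 1
  residue : ∀ g : X.functionField, v g = 1 → ∃ c : k, v (g - constHom f c) < 1
  rank : Module.rank ℚ (Submodule.span ℚ
      {t : ℝ | ∃ g : X.functionField, g ≠ 0 ∧ t = Real.log (v g)}) + 1 =
    @Algebra.trdeg k X.functionField _ _ (constHom f).toAlgebra

end Pool.Agent.LU1G
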