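import Pool.Agent.Lib.LU1G.Setup

section GluePart

/-!
# GD: gluing a modification of an open set to the identity of another one
-/

set_option autoImplicit false

open AlgebraicGeometry CategoryTheory Limits

namespace Pool.Agent.LU1G

theorem isIso_of_isPullback_id {X Y : Scheme.{0}} (π : Y ⟶ X) (W : X.Opens)
    (i : W.toScheme ⟶ Y) (h : IsPullback i (𝟙 W.toScheme) π W.ι) : IsIso (π ∣_ W) := by
  have h2 := (isPullback_morphismRestrict π W).flip
  have h3 : (h.isoIsPullback _ _ h2).hom ≫ (π ∣_ W) = 𝟙 W.toScheme := by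
    simp
  have h4 : (π ∣_ W) = (h.isoIsPullback _ _ h2).inv := by
    rw [← cancel_epi (h.isoIsPullback _ _ h2).hom, h3, Iso.hom_inv_id]
  rw [h4]
  infer_instance

theorem isOpenImmersion_span_map {P Z W : Scheme.{0}} (f : P ⟶ Z) (g : P ⟶ W)
    [IsOpenImmersion f] [IsOpenImmersion g] {i j : WalkingSpan} (h : i ⟶ j) :
    IsOpenImmersion ((span f g).map h) := by
  rcases h with _ | (_ | _)
  · change IsOpenImmersion ((span f g).map (𝟙 i))
    rw [CategoryTheory.Functor.map_id]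
    infer_instance
  · exact ‹IsOpenImmersion f›
  · exact ‹IsOpenImmersion g›

/-- Gluing of two schemes along an open set. -/
theorem exists_glue {P Z W X : Scheme.{0}} (f : P ⟶ Z) (g : P ⟶ W)
    [IsOpenImmersion f] [IsOpenImmersion g] (a : Z ⟶ X) (b : W ⟶ X) (hab : f ≫ a = g ≫ b) :
    ∃ (Y : Scheme.{0}) (j : Z ⟶ Y) (i : W ⟶ Y) (π : Y ⟶ X), IsOpenImmersion j ∧
      IsOpenImmersion i ∧ f ≫ j = g ≫ i ∧ j ≫ π = a ∧ i ≫ π = b ∧
      ∀ y : Y, y ∈ Set.range j ∨ y ∈ Set.range i := by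
  have : ∀ {i j : WalkingSpan} (h : i ⟶ j), IsOpenImmersion ((span f g).map h) :=
    fun h => isOpenImmersion_span_map f g h
  refine ⟨pushout f g, pushout.inl f g, pushout.inr f g, pushout.desc a b hab,
    inferInstanceAs (IsOpenImmersion (colimit.ι (span f g) WalkingSpan.left)),
    inferInstanceAs (IsOpenImmersion (colimit.ι (span f g) WalkingSpan.right)),
    pushout.condition, pushout.inl_desc a b hab, pushout.inr_desc a b hab, ?_⟩
  intro y
  obtain ⟨k, x, hx⟩ := Scheme.IsLocallyDirected.ι_jointly_surjective (span f g) y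
  rcases k with _ | (_ | _)
  · left
    refine ⟨f x, ?_⟩
    rw [← hx]
    have h : (f ≫ pushout.inl f g) x = (colimit.ι (span f g) WalkingSpan.zero) x := by
      rw [← colimit.w (span f g) WalkingSpan.Hom.fst]
      rfl
    exact h
  · left
    exact ⟨x, hx⟩
  · right
    exact ⟨x, hx⟩

/-- GD1. -/
theorem glue (X : Scheme.{0}) (U W : X.Opens) (hUW : U ⊔ W = ⊤) (Z : Scheme.{0})
    (q : Z ⟶ U.toScheme) (hq : IsIso (q ∣_ (U.ι ⁻¹ᵁ W))) :
    ∃ (Y : Scheme.{0}) (π : Y ⟶ X) (j : Z ⟶ Y), IsOpenImmersion j ∧ IsPullback j q π U.ι ∧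
      IsIso (π ∣_ W) := by
  obtain ⟨Y, j, i, π, hj, hi, hfg, hja, hib, hcov⟩ :=
    exists_glue (q ⁻¹ᵁ (U.ι ⁻¹ᵁ W)).ι ((q ∣_ (U.ι ⁻¹ᵁ W)) ≫ (U.ι ∣_ W)) (q ≫ U.ι) W.ι (by
      rw [Category.assoc, morphismRestrict_ι, morphismRestrict_ι_assoc])
  have hP : ∀ w : W, W.ι w ∈ U → i w ∈ Set.range j := by
    intro w hw
    obtain ⟨u, hu, -⟩ := Scheme.exists_preimage_of_isPullback (isPullback_morphismRestrict U.ι W)
      w (⟨W.ι w, hw⟩ : U.toScheme) rfl
    obtain ⟨p, hp⟩ := (q ∣_ (U.ι ⁻¹ᵁ W)).surjective u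
    refine ⟨(q ⁻¹ᵁ (U.ι ⁻¹ᵁ W)).ι p, ?_⟩
    rw [← Scheme.Hom.comp_apply, hfg, Scheme.Hom.comp_apply, Scheme.Hom.comp_apply, hp]
    exact congrArg i hu
  have hQ : ∀ z : Z, U.ι (q z) ∈ W → j z ∈ Set.range i := by
    intro z hz
    obtain ⟨p, hp⟩ : z ∈ Set.range (q ⁻¹ᵁ (U.ι ⁻¹ᵁ W)).ι := by
      simpa using hz
    refine ⟨((q ∣_ (U.ι ⁻¹ᵁ W)) ≫ (U.ι ∣_ W)) p, ?_⟩
    rw [← Scheme.Hom.comp_apply, ← hfg, Scheme.Hom.comp_apply, hp]
  refine ⟨Y, π, j, hj, ?_, ?_⟩
  · refine (IsOpenImmersion.isPullback q j U.ι π hja ?_).flip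
    ext y
    constructor
    · intro hy
      rcases hcov y with h | ⟨w, rfl⟩
      · exact h
      · refine hP w ?_
        rw [← hib]
        simpa using hy
    · rintro ⟨z, rfl⟩
      have : π (j z) = U.ι (q z) := by
        rw [← Scheme.Hom.comp_apply, ← Scheme.Hom.comp_apply, hja]
      simp only [Scheme.Opens.opensRange_ι]
      change π (j z) ∈ U
      rw [this]
      exact (q z).2
  · refine isIso_of_isPullback_id π W i ?_
    refine (IsOpenImmersion.isPullback (𝟙 _) i W.ι π (by rw [hib, Category.id_comp]) ?_).flip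
    ext y
    constructor
    · intro hy
      rcases hcov y with ⟨z, rfl⟩ | h
      · refine hQ z ?_
        have : U.ι (q z) = π (j z) := by
          rw [← Scheme.Hom.comp_apply, ← Scheme.Hom.comp_apply, hja]
        rw [this]
        simpa using hy
      · exact h
    · rintro ⟨w, rfl⟩
      have : π (i w) = W.ι w := by
        rw [← Scheme.Hom.comp_apply, hib]
      simp only [Scheme.Opens.opensRange_ι]
      change π (i w) ∈ W
      rw [this]
      exact w.2

end Pool.Agent.LU1G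

end GluePart

section GluePropsPart

/-!
# GD2: properties of the glued scheme
-/

set_option autoImplicit false

open AlgebraicGeometry CategoryTheory

namespace Pool.Agent.LU1G

theorem restrict_eq {X Y Z : Scheme.{0}} (U : X.Opens) (q : Z ⟶ U.toScheme)
    (π : Y ⟶ X) (j : Z ⟶ Y) (hj : IsPullback j q π U.ι) :
    ∃ e : (π ⁻¹ᵁ U).toScheme ≅ Z, (π ∣_ U) = e.hom ≫ q ∧ e.hom ≫ j = (π ⁻¹ᵁ U).ι := by
  have h2 := (isPullback_morphismRestrict π U).flip
  refine ⟨h2.isoIsPullback _ _ hj, ?_, ?_⟩ <;> simp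

theorem irreducibleSpace_of_cover {Y : Type} [TopologicalSpace Y] (A B : Set Y) (hA : IsOpen A)
    (hB : IsOpen B) (hA' : IsIrreducible A) (hB' : IsIrreducible B) (hAB : A ∪ B = Set.univ)
    (hne : (A ∩ B).Nonempty) : IrreducibleSpace Y := by
  have key : ∀ S : Set Y, IsOpen S → S.Nonempty → (S ∩ (A ∩ B)).Nonempty := by
    intro S hS ⟨s, hs⟩
    have : s ∈ A ∪ B := by rw [hAB]; trivial
    rcases this with h | h
    · obtain ⟨x, hx⟩ := hA'.2 S (A ∩ B) hS (hA.inter hB) ⟨s, h, hs⟩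
        (by obtain ⟨y, hy⟩ := hne; exact ⟨y, hy.1, hy⟩)
      exact ⟨x, hx.2⟩
    · obtain ⟨x, hx⟩ := hB'.2 S (A ∩ B) hS (hA.inter hB) ⟨s, h, hs⟩
        (by obtain ⟨y, hy⟩ := hne; exact ⟨y, hy.2, hy⟩)
      exact ⟨x, hx.2⟩
  refine { isPreirreducible_univ := ?_, toNonempty := ⟨hne.some⟩ }
  intro S T hS hT ⟨s, _, hs⟩ ⟨t, _, ht⟩
  obtain ⟨x, hx⟩ := key S hS ⟨s, hs⟩
  obtain ⟨y, hy⟩ := key T hT ⟨t, ht⟩
  obtain ⟨z, hz⟩ := hA'.2 S T hS hT ⟨x, hx.2.1, hx.1⟩ ⟨y, hy.2.1, hy.1⟩
  exact ⟨z, trivial, hz.2⟩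

theorem isIrreducible_open {Y : Scheme.{0}} (V : Y.Opens) (h : IsIntegral V.toScheme) :
    IsIrreducible (V : Set Y) := by
  have h1 := (IrreducibleSpace.isIrreducible_univ V.toScheme).image V.ι
    V.ι.continuous.continuousOn
  rwa [Set.image_univ, Scheme.Opens.range_ι] at h1

/-- GD2. -/
theorem glue_props {X Y Z : Scheme.{0}} (U W : X.Opens) (hUW : U ⊔ W = ⊤) (q : Z ⟶ U.toScheme)
    (π : Y ⟶ X) (j : Z ⟶ Y) (hj : IsPullback j q π U.ι) (hW : IsIso (π ∣_ W))
    [IsIntegral X] [IsIntegral Z] [IsProper q] (hU : (U : Set X).Nonempty)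
    (hW' : (W : Set X).Nonempty) : IsIntegral Y ∧ IsProper π := by
  obtain ⟨e, he, hej⟩ := restrict_eq U q π j hj
  have hp : IsProper (π ∣_ U) := by rw [he]; infer_instance
  have hIU : IsIntegral (π ⁻¹ᵁ U).toScheme := IsIntegral.of_isIso e.inv
  have : Nonempty W.toScheme := ⟨⟨_, hW'.some_mem⟩⟩
  have hIW0 : IsIntegral W.toScheme := isIntegral_of_isOpenImmersion W.ι
  have hIW : IsIntegral (π ⁻¹ᵁ W).toScheme := IsIntegral.of_isIso (inv (π ∣_ W))
  have hcov : (π ⁻¹ᵁ U) ⊔ (π ⁻¹ᵁ W) = ⊤ := by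
    rw [← Scheme.Hom.preimage_sup, hUW]; rfl
  refine ⟨?_, ?_⟩
  · have : IsReduced Y := by
      have : ∀ b : Bool, IsReduced ((bif b then (π ⁻¹ᵁ U) else (π ⁻¹ᵁ W) : Y.Opens)).toScheme := by
        rintro (_ | _)
        · change IsReduced (π ⁻¹ᵁ W).toScheme
          infer_instance
        · change IsReduced (π ⁻¹ᵁ U).toScheme
          infer_instance
      have hc : TopologicalSpace.IsOpenCover (fun b : Bool => (bif b then (π ⁻¹ᵁ U) else (π ⁻¹ᵁ W) :
          Y.Opens)) := by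
        rw [TopologicalSpace.IsOpenCover, iSup_bool_eq]
        exact hcov
      have : ∀ i, IsReduced ((Y.openCoverOfIsOpenCover _ hc).X i) := this
      exact IsReduced.of_openCover Y (Y.openCoverOfIsOpenCover _ hc)
    have : IrreducibleSpace Y := by
      refine irreducibleSpace_of_cover (π ⁻¹ᵁ U : Set Y) (π ⁻¹ᵁ W : Set Y) (π ⁻¹ᵁ U).isOpen
        (π ⁻¹ᵁ W).isOpen ?_ ?_ ?_ ?_
      · exact isIrreducible_open _ hIU
      · exact isIrreducible_open _ hIW
      · exact congrArg (fun V : Y.Opens => (V : Set Y)) hcov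
      · obtain ⟨x, hxU, hxW⟩ := nonempty_preirreducible_inter U.isOpen W.isOpen hU hW'
        obtain ⟨y, hy⟩ := (π ∣_ W).surjective ⟨x, hxW⟩
        have hyx : π ((π ⁻¹ᵁ W).ι y) = x := by
          have h1 : ((π ∣_ W) ≫ W.ι) y = x := by
            rw [Scheme.Hom.comp_apply, hy]
            rfl
          rw [morphismRestrict_ι] at h1
          exact h1
        refine ⟨(π ⁻¹ᵁ W).ι y, ?_, ?_⟩
        · change π ((π ⁻¹ᵁ W).ι y) ∈ U
          rw [hyx]
          exact hxU
        · change π ((π ⁻¹ᵁ W).ι y) ∈ W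
          rw [hyx]
          exact hxW
    exact isIntegral_of_irreducibleSpace_of_isReduced Y
  · refine IsZariskiLocalAtTarget.of_iSup_eq_top (P := @IsProper) (fun b : Bool => bif b then U else W) ?_ ?_
    · rw [iSup_bool_eq]
      exact hUW
    · rintro (_ | _)
      · change IsProper (π ∣_ W)
        infer_instance
      · exact hp

end Pool.Agent.LU1G

end GluePropsPart

section LiftPart

/-!
# GH: lifting along modifications
-/

set_option autoImplicit false

open AlgebraicGeometry CategoryTheory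

namespace Pool.Agent.LU1G

/-- A morphism from the spectrum of a local ring whose closed point lands in an open set lands in
the open set. -/
theorem range_subset_of_closedPoint {R : CommRingCat.{0}} [IsLocalRing R] {X : Scheme.{0}}
    (c : Spec R ⟶ X) (U : X.Opens) (hU : c (IsLocalRing.closedPoint R) ∈ U) :
    Set.range c ⊆ U := by
  rintro _ ⟨x, rfl⟩
  have h : x ⤳ (IsLocalRing.closedPoint R : PrimeSpectrum R) :=
    IsLocalRing.specializes_closedPoint x
  exact (h.map c.continuous).mem_open U.2 hU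

/-- GH2: morphisms into an open set over which `π` is an isomorphism lift, and smoothness is
preserved. -/
theorem lift_of_iso {K k : Type} [Field K] [Field k] {X Y : Scheme.{0}} (π : Y ⟶ X)
    (f : X ⟶ Spec (CommRingCat.of k)) (V : ValuationSubring K) (c : Spec (CommRingCat.of V) ⟶ X)
    (U : X.Opens) (hU : c (cpt V) ∈ U) (hπ : IsIso (π ∣_ U)) (hsm : Smooth (U.ι ≫ f)) :
    ∃ c' : Spec (CommRingCat.of V) ⟶ Y, c' ≫ π = c ∧ SmoothAt (π ≫ f) (c' (cpt V)) := by
  have hr : Set.range c ⊆ Set.range U.ι := by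
    rw [Scheme.Opens.range_ι]
    exact range_subset_of_closedPoint c U hU
  let c₀ : Spec (CommRingCat.of V) ⟶ U.toScheme := IsOpenImmersion.lift U.ι c hr
  have hc₀ : c₀ ≫ U.ι = c := IsOpenImmersion.lift_fac U.ι c hr
  refine ⟨c₀ ≫ inv (π ∣_ U) ≫ (π ⁻¹ᵁ U).ι, ?_, π ⁻¹ᵁ U, ?_, ?_⟩
  · rw [Category.assoc, Category.assoc, ← morphismRestrict_ι, IsIso.inv_hom_id_assoc, hc₀]
  · have : (c₀ ≫ inv (π ∣_ U) ≫ (π ⁻¹ᵁ U).ι) (cpt V) =
      (π ⁻¹ᵁ U).ι ((c₀ ≫ inv (π ∣_ U)) (cpt V)) := by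
      simp
    rw [this]
    exact ((c₀ ≫ inv (π ∣_ U)) (cpt V)).2
  · have : (π ⁻¹ᵁ U).ι ≫ π ≫ f = (π ∣_ U) ≫ U.ι ≫ f := by
      rw [← Category.assoc, ← morphismRestrict_ι, Category.assoc]
    rw [this]
    infer_instance

end Pool.Agent.LU1G

end LiftPart

section Lift2Part

/-!
# GH3: the valuative criterion
-/

set_option autoImplicit false

open AlgebraicGeometry CategoryTheory

namespace Pool.Agent.LU1G

/-- GH3: the valuative criterion. -/
theorem lift_of_proper {K : Type} [Field K] {X Y : Scheme.{0}} (π : Y ⟶ X) [IsProper π]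
    (V : ValuationSubring K) (c : Spec (CommRingCat.of V) ⟶ X) (η : Spec (CommRingCat.of K) ⟶ Y)
    (hc : incV V ≫ c = η ≫ π) :
    ∃ c' : Spec (CommRingCat.of V) ⟶ Y, c' ≫ π = c ∧ incV V ≫ c' = η := by
  have h : ValuativeCriterion π := by
    have h1 : IsProper π := inferInstance
    rw [IsProper.eq_valuativeCriterion] at h1
    exact h1.1.1.1
  let S : ValuativeCommSq π :=
    { R := V
      K := K
      i₁ := η
      i₂ := c
      commSq := ⟨hc.symm⟩ }
  have h2 := h.existence S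
  obtain ⟨l⟩ := h2.exists_lift
  exact ⟨l.l, l.fac_right, l.fac_left⟩

end Pool.Agent.LU1G

end Lift2Part

section LiftGenPart

/-!
# GH1: the generic point lifts
-/

set_option autoImplicit false

open AlgebraicGeometry CategoryTheory

namespace Pool.Agent.LU1G

/-- The generic point maps to the generic point. -/
theorem map_genericPoint {X Y : Scheme.{0}} [IsIntegral X] [IsIntegral Y]
    (π : Y ⟶ X) (W : X.Opens) (hW : genericPoint X ∈ W) (hπ : IsIso (π ∣_ W)) :
    π (genericPoint Y) = genericPoint X := by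
  have hs : Function.Surjective (π ∣_ W) := (π ∣_ W).surjective
  obtain ⟨y, hy⟩ := hs ⟨genericPoint X, hW⟩
  have h1 : π y.1 = genericPoint X := by
    have h2 := congrArg Subtype.val hy
    rw [morphismRestrict_base_coe] at h2
    exact h2
  have h3 : genericPoint Y ⤳ y.1 := genericPoint_specializes y.1
  have h4 : π (genericPoint Y) ⤳ genericPoint X := by
    rw [← h1]
    exact h3.map π.continuous
  exact (h4.antisymm (genericPoint_specializes _)).eq

/-- The morphism induced by a homomorphism out of the stalk at the generic point, after a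
modification. -/
theorem comp_eq {X Y : Scheme.{0}} (π : Y ⟶ X) (y : Y) (x : X) (hxy : Inseparable x (π y))
    (hiso : IsIso (π.stalkMap y)) (R : CommRingCat.{0}) (a : X.presheaf.stalk x ⟶ R)
    (b : Y.presheaf.stalk y ⟶ R)
    (hb : (X.presheaf.stalkCongr hxy).hom ≫ π.stalkMap y ≫ b = a) :
    (Spec.map b ≫ Y.fromSpecStalk y) ≫ π = Spec.map a ≫ X.fromSpecStalk x := by
  have h2 : (X.presheaf.stalkCongr hxy).hom = X.presheaf.stalkSpecializes hxy.ge := rfl
  rw [Category.assoc, ← Scheme.SpecMap_stalkMap_fromSpecStalk, ← hb, Spec.map_comp,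
    Spec.map_comp, h2, Category.assoc, Category.assoc]
  have h5 : Spec.map (X.presheaf.stalkSpecializes (x := π y) (y := x) hxy.ge) ≫
      X.fromSpecStalk x = X.fromSpecStalk (π y) :=
    Scheme.SpecMap_stalkSpecializes_fromSpecStalk hxy.ge
  exact (congrArg (fun t => Spec.map b ≫ Spec.map (π.stalkMap y) ≫ t) h5).symm

/-- GH1: the generic point lifts. -/
theorem IsGen.lift {K : Type} [Field K] {X Y : Scheme.{0}} [IsIntegral X] [IsIntegral Y]
    (π : Y ⟶ X) (W : X.Opens) (hW : genericPoint X ∈ W) (hπ : IsIso (π ∣_ W))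
    (η : Spec (CommRingCat.of K) ⟶ X) (hη : IsGen η) :
    ∃ η' : Spec (CommRingCat.of K) ⟶ Y, η' ≫ π = η ∧ IsGen η' := by
  obtain ⟨e, he⟩ := hη
  have hg : π (genericPoint Y) = genericPoint X := map_genericPoint π W hW hπ
  have hmem : π (genericPoint Y) ∈ W := by rw [hg]; exact hW
  have hiso : IsIso (π.stalkMap (genericPoint Y)) := by
    let y0 : (π ⁻¹ᵁ W).toScheme := ⟨genericPoint Y, hmem⟩
    have h1 : IsIso ((π ∣_ W).stalkMap y0) := inferInstance
    exact (MorphismProperty.arrow_mk_iso_iff (MorphismProperty.isomorphisms _)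
      (morphismRestrictStalkMap π W y0)).1 h1
  have hin : Inseparable (genericPoint X) (π (genericPoint Y)) := by rw [hg]
  let e1 : X.presheaf.stalk (genericPoint X) ≅ Y.presheaf.stalk (genericPoint Y) :=
    X.presheaf.stalkCongr hin ≪≫ asIso (π.stalkMap (genericPoint Y))
  let e2 : Y.functionField ≃+* K := e1.symm.commRingCatIsoToRingEquiv.trans e
  refine ⟨Spec.map (CommRingCat.ofHom e2.toRingHom) ≫ Y.fromSpecStalk (genericPoint Y), ?_,
    e2, rfl⟩
  rw [he]
  refine comp_eq π (genericPoint Y) (genericPoint X) hin hiso (CommRingCat.of K) _ _ ?_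
  have h3 : CommRingCat.ofHom e2.toRingHom = e1.inv ≫ CommRingCat.ofHom e.toRingHom := rfl
  have h4 : (X.presheaf.stalkCongr hin).hom ≫ π.stalkMap (genericPoint Y) = e1.hom := rfl
  rw [← Category.assoc, h4]
  exact (congrArg (fun t => e1.hom ≫ t) h3).trans (Iso.hom_inv_id_assoc e1 _)

end Pool.Agent.LU1G

end LiftGenPart
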