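import Pool.Agent.Lib.LU1G.Ring
import Pool.Agent.Lib.LU1G.Chart
import Pool.Agent.Lib.LU1_h15.Basic
import Pool.Agent.Lib.LU1G.Setup
import Pool.Agent.Lib.LU1G.Defs
import Pool.Agent.Lib.LU1G.Schemes

section AffinePart

/-!
# GC: the affine case
-/

set_option autoImplicit false

open AlgebraicGeometry CategoryTheory

namespace Pool.Agent.LU1G

open Pool.Agent.H15JM (RVal)
open Pool.Agent.LU1

/-- Isomorphisms restrict to smaller open sets of the target. -/
theorem isIso_restrict_of_le {X Y : Scheme.{0}} (f : X ⟶ Y) {U V : Y.Opens} (h : U ≤ V)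
    [hV : IsIso (f ∣_ V)] : IsIso (f ∣_ U) := by
  have h1 := isPullback_morphismRestrict f U
  rw [← Scheme.homOfLE_ι Y h, ← Scheme.homOfLE_ι X (f.preimage_mono h)] at h1
  have h2 := IsPullback.of_bot h1 (morphismRestrict_homOfLE f U V h)
    (isPullback_morphismRestrict f V)
  exact MorphismProperty.of_isPullback (P := MorphismProperty.isomorphisms Scheme) h2.flip hV

/-- An isomorphism over the basic open sets of the elements of `I` is an isomorphism over every
open set that avoids a point through which all primes containing `I` pass. -/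
theorem iso_of_basicOpen {A : Type} [CommRing A] [IsDomain A] {Z : Scheme.{0}}
    (π : Z ⟶ Spec (CommRingCat.of A)) (I : Ideal A)
    (h : ∀ x ∈ I, x ≠ 0 → IsIso (π ∣_ (PrimeSpectrum.basicOpen x)))
    (W : (Spec (CommRingCat.of A)).Opens)
    (hW : ∀ P : PrimeSpectrum A, P ∈ W → ¬ I ≤ P.asIdeal) : IsIso (π ∣_ W) := by
  apply IsZariskiLocalAtTarget.of_forall_exists_morphismRestrict
    (P := MorphismProperty.isomorphisms Scheme)
  intro x
  have h1 := hW (W.ι x) x.2
  rw [SetLike.not_le_iff_exists] at h1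
  obtain ⟨a, haI, ha⟩ := h1
  have ha0 : a ≠ 0 := by
    rintro rfl
    exact ha (Ideal.zero_mem _)
  have hD := h a haI ha0
  refine ⟨W.ι ⁻¹ᵁ (PrimeSpectrum.basicOpen a), ha, ?_⟩
  have h2 : IsIso (π ∣_ (W.ι ''ᵁ (W.ι ⁻¹ᵁ (PrimeSpectrum.basicOpen a)))) :=
    isIso_restrict_of_le π (W.ι.image_preimage_le _)
  exact ((MorphismProperty.isomorphisms Scheme).arrow_mk_iso_iff
    (morphismRestrictRestrict π W (W.ι ⁻¹ᵁ (PrimeSpectrum.basicOpen a)))).2 h2

theorem affine_unif (p : ℕ) (hp : p.Prime) (k A K : Type) [Field k] [CharP k p] [IsAlgClosed k]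
    [CommRing A] [IsDomain A] [Algebra k A] [Algebra.FiniteType k A] [Field K] [Algebra A K]
    [Algebra k K] [IsScalarTower k A K] [IsFractionRing A K] (v : RVal K) (r : ℕ)
    (h : Ctx k v r) (V : ValuationSubring K) (hV : ∀ g : K, g ≠ 0 → (g ∈ V ↔ 0 ≤ v g))
    (hAV : ∀ a : A, algebraMap A K a ∈ V) :
    ∃ (Z : Scheme.{0}) (π : Z ⟶ Spec (CommRingCat.of A)), IsIntegral Z ∧ IsProper π ∧
      (∀ W : (Spec (CommRingCat.of A)).Opens,
        Spec.map (CommRingCat.ofHom ((algebraMap A K).codRestrict V hAV)) (cpt V) ∉ W →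
          IsIso (π ∣_ W)) ∧
      ∃ c' : Spec (CommRingCat.of V) ⟶ Z,
        c' ≫ π = Spec.map (CommRingCat.ofHom ((algebraMap A K).codRestrict V hAV)) ∧
        SmoothAt (π ≫ Spec.map (CommRingCat.ofHom (algebraMap k A))) (c' (cpt V)) := by
  have hmem : ∀ g : K, v.Ge 0 g → g ∈ V := by
    intro g hg
    by_cases h0 : g = 0
    · rw [h0]
      exact V.zero_mem
    · exact (hV g h0).2 (hg h0)
  have hA : ∀ a : A, v.Ge 0 (algebraMap A K a) := fun a h0 => (hV _ h0).1 (hAV a)
  obtain ⟨I, g, hgI, hg0, hge, hprime, t, ht, ht0, hvt, hsm⟩ :=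
    ring_unif p hp k A K v r h hA
  have hinj : Function.Injective (algebraMap A K) := IsFractionRing.injective A K
  have hgK : algebraMap A K g ≠ 0 := fun h0 => hg0 (hinj (by rw [h0, map_zero]))
  obtain ⟨Z, π, hZ, hπ, hiso, c', hc', hs⟩ := blow_chart k A K V hAV I g hgI hg0
    (by
      intro x hx
      apply hmem
      intro h0
      have hx0 : algebraMap A K x ≠ 0 := by
        intro h1
        rw [h1, zero_div] at h0
        exact h0 rfl
      rw [v.map_div hx0 hgK]
      have := hge x hx hx0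
      linarith)
    t ht ht0
    (by
      apply hmem
      intro h0
      rw [v.map_inv ht0, hvt, neg_zero])
    hsm
  refine ⟨Z, π, hZ, hπ, ?_, c', hc', hs⟩
  intro W hW
  apply iso_of_basicOpen π I hiso W
  intro P hP hIP
  apply hW
  set q : PrimeSpectrum A :=
    (Spec.map (CommRingCat.ofHom ((algebraMap A K).codRestrict V hAV)) (cpt V)) with hq
  have hle : q ≤ P := by
    intro a ha
    apply hprime P.asIdeal P.2 hIP
    intro h0
    have h1 : (algebraMap A K).codRestrict V hAV a ∈ IsLocalRing.maximalIdeal V := ha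
    rw [IsLocalRing.mem_maximalIdeal, mem_nonunits_iff] at h1
    rcases (hA a h0).lt_or_eq with h3 | h3
    · exact h3
    · exfalso
      apply h1
      have h4 : (algebraMap A K a)⁻¹ ∈ V := by
        apply hmem
        intro _
        rw [v.map_inv h0, ← h3, neg_zero]
      refine IsUnit.of_mul_eq_one ⟨(algebraMap A K a)⁻¹, h4⟩ (Subtype.ext ?_)
      exact mul_inv_cancel₀ h0
  exact ((PrimeSpectrum.le_iff_specializes _ _).1 hle).mem_open W.2 hP

end Pool.Agent.LU1G

end AffinePart

section OpenUPart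

/-!
# GE2: modification of an affine open neighbourhood of the centre
-/

set_option autoImplicit false

open AlgebraicGeometry CategoryTheory

namespace Pool.Agent.LU1G

open Pool.Agent.H15JM (RVal)
open Pool.Agent.LU1

/-- A morphism from the spectrum of a local ring whose closed point is mapped into an affine open
set factors through it. -/
theorem factor_affine {X : Scheme.{0}} (U : X.Opens) (hU : IsAffineOpen U) {R : Type}
    [CommRing R] [IsLocalRing R] (c : Spec (CommRingCat.of R) ⟶ X)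
    (hc : c (IsLocalRing.closedPoint R) ∈ U) :
    ∃ φ : Γ(X, U) →+* R, Spec.map (CommRingCat.ofHom φ) ≫ hU.fromSpec = c := by
  have hr : Set.range c ⊆ Set.range hU.fromSpec := by
    rw [hU.range_fromSpec]
    rintro _ ⟨x, rfl⟩
    have h1 : x ⤳ IsLocalRing.closedPoint R := IsLocalRing.specializes_closedPoint x
    exact (h1.map c.continuous).mem_open U.isOpen hc
  refine ⟨(Spec.preimage (IsOpenImmersion.lift hU.fromSpec c hr)).hom, ?_⟩
  rw [CommRingCat.ofHom_hom, Spec.map_preimage]
  exact IsOpenImmersion.lift_fac _ _ _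

/-- The coordinate ring of an affine open set and the generic point. -/
theorem frac_affine {K : Type} [Field K] {X : Scheme.{0}} [IsIntegral X] (U : X.Opens)
    (hU : IsAffineOpen U) (hne : (U : Set X).Nonempty) (η : Spec (CommRingCat.of K) ⟶ X)
    (hη : IsGen η) (φ : Γ(X, U) →+* K)
    (hφ : Spec.map (CommRingCat.ofHom φ) ≫ hU.fromSpec = η) :
    letI : Algebra Γ(X, U) K := φ.toAlgebra
    IsFractionRing Γ(X, U) K := by
  obtain ⟨e, he⟩ := hη
  have hne' : Nonempty U := ⟨⟨_, hne.some_mem⟩⟩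
  have hgU : genericPoint X ∈ U :=
    ((genericPoint_spec X).mem_open_set_iff U.isOpen).mpr (by simpa using hne)
  have h1 := functionField_isFractionRing_of_isAffineOpen X U hU
  have h2 : φ = e.toRingHom.comp (algebraMap Γ(X, U) X.functionField) := by
    have h3 : Spec.map (CommRingCat.ofHom φ) =
        Spec.map (CommRingCat.ofHom (e.toRingHom.comp (algebraMap Γ(X, U) X.functionField))) := by
      rw [← cancel_mono hU.fromSpec, hφ, he, ← hU.fromSpecStalk_eq_fromSpecStalk hgU,
        IsAffineOpen.fromSpecStalk, ← Spec.map_comp_assoc]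
      rfl
    have h4 := Spec.map_injective h3
    exact congrArg CommRingCat.Hom.hom h4
  let _ : Algebra Γ(X, U) K := φ.toAlgebra
  let e' : X.functionField ≃ₐ[Γ(X, U)] K := { e with
    commutes' := fun a => by
      change e (algebraMap Γ(X, U) X.functionField a) = φ a
      rw [h2]
      rfl }
  exact IsLocalization.isLocalization_of_algEquiv (nonZeroDivisors Γ(X, U)) e'

/-- GE2: modification of an affine open neighbourhood `U` of the centre. -/
theorem open_unif (p : ℕ) (hp : p.Prime) (k K : Type) [Field k] [CharP k p] [IsAlgClosed k]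
    [Field K] [Algebra k K] (X : Scheme.{0}) [IsIntegral X] (f : X ⟶ Spec (CommRingCat.of k))
    [LocallyOfFiniteType f] (η : Spec (CommRingCat.of K) ⟶ X) (hη : IsGen η)
    (hηf : η ≫ f = Spec.map (CommRingCat.ofHom (algebraMap k K))) (v : RVal K) (r : ℕ)
    (h : Ctx k v r) (V : ValuationSubring K) (hV : ∀ g : K, g ≠ 0 → (g ∈ V ↔ 0 ≤ v g))
    (c : Spec (CommRingCat.of V) ⟶ X) (hc : incV V ≫ c = η) (U : X.Opens)
    (hU : IsAffineOpen U) (hcU : c (cpt V) ∈ U) :
    ∃ (Z : Scheme.{0}) (q : Z ⟶ U.toScheme), IsIntegral Z ∧ IsProper q ∧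
      (∀ W : U.toScheme.Opens, (∀ w ∈ W, U.ι w ≠ c (cpt V)) → IsIso (q ∣_ W)) ∧
      ∃ c' : Spec (CommRingCat.of V) ⟶ Z, c' ≫ q ≫ U.ι = c ∧
        SmoothAt (q ≫ U.ι ≫ f) (c' (cpt V)) := by
  obtain ⟨φ, hφ⟩ := factor_affine U hU c hcU
  have hne : Nonempty U := ⟨⟨_, hcU⟩⟩
  let A : Type := Γ(X, U)
  let _ : CommRing A := inferInstanceAs (CommRing Γ(X, U))
  have : IsDomain A := inferInstanceAs (IsDomain Γ(X, U))
  let φK : A →+* K := (algebraMap V K).comp φ
  let φk : k →+* A := (Spec.preimage (hU.fromSpec ≫ f)).hom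
  let _ : Algebra A K := φK.toAlgebra
  let _ : Algebra k A := φk.toAlgebra
  have hφK : Spec.map (CommRingCat.ofHom φK) ≫ hU.fromSpec = η := by
    rw [← hc, ← hφ, incV, ← Category.assoc, ← Spec.map_comp]
    rfl
  have hφk : Spec.map (CommRingCat.ofHom φk) = hU.fromSpec ≫ f := by
    rw [CommRingCat.ofHom_hom, Spec.map_preimage]
  have hft : Algebra.FiniteType k A := by
    have h1 : LocallyOfFiniteType (Spec.map (CommRingCat.ofHom φk)) := by
      rw [hφk]
      infer_instance
    exact (HasRingHomProperty.Spec_iff (P := @LocallyOfFiniteType)).mp h1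
  have : IsScalarTower k A K := by
    refine IsScalarTower.of_algebraMap_eq' ?_
    have h1 : Spec.map (CommRingCat.ofHom (algebraMap k K)) =
        Spec.map (CommRingCat.ofHom (φK.comp φk)) := by
      rw [← hηf, ← hφK, Category.assoc, ← hφk, ← Spec.map_comp]
      rfl
    exact congrArg CommRingCat.Hom.hom (Spec.map_injective h1)
  have : IsFractionRing A K := frac_affine U hU ⟨_, hcU⟩ η hη φK hφK
  have hAV : ∀ a : A, algebraMap A K a ∈ V := fun a => (φ a).2
  obtain ⟨Z, π, hZ, hπ, hiso, c', hc', hsm⟩ := affine_unif p hp k A K v r h V hV hAV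
  have hcod : (algebraMap A K).codRestrict V hAV = φ := by
    ext a
    rfl
  rw [hcod] at hiso hc'
  have e1 : hU.isoSpec.inv ≫ U.ι = hU.fromSpec := hU.isoSpec_inv_ι
  refine ⟨Z, π ≫ hU.isoSpec.inv, hZ, inferInstance, ?_, c', ?_, ?_⟩
  · intro W hW
    rw [morphismRestrict_comp]
    have : IsIso (π ∣_ (hU.isoSpec.inv ⁻¹ᵁ W)) := by
      apply hiso
      intro hmem
      refine hW _ hmem ?_
      rw [← hφ, ← e1]
      rfl
    have h2 : IsIso (hU.isoSpec.inv ∣_ W) := inferInstance
    exact IsIso.comp_isIso' this h2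
  · rw [Category.assoc, e1, reassoc_of% hc', hφ]
  · have e2 : (π ≫ hU.isoSpec.inv) ≫ U.ι ≫ f =
        π ≫ Spec.map (CommRingCat.ofHom (algebraMap k A)) := by
      rw [Category.assoc, reassoc_of% e1]
      exact congrArg (fun g => π ≫ g) hφk.symm
    rw [e2]
    exact hsm

end Pool.Agent.LU1G

end OpenUPart

section ClosedPart

/-!
# GE1: the centre is a closed point, not the generic one
-/

set_option autoImplicit false

open AlgebraicGeometry CategoryTheory

namespace Pool.Agent.LU1G

open Pool.Agent.H15JM (RVal)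
open Pool.Agent.LU1

/-- A morphism from the spectrum of a local ring, composed with the closed point of the residue
field. -/
theorem residue_closedPoint {K : Type} [Field K] (V : ValuationSubring K) :
    Spec.map (CommRingCat.ofHom (IsLocalRing.residue V))
      (IsLocalRing.closedPoint (IsLocalRing.ResidueField V)) = cpt V :=
  IsLocalRing.comap_closedPoint (IsLocalRing.residue V)

/-- The residue field of `V` is a quotient of `k`. -/
theorem residue_surj (k K : Type) [Field k] [Field K] [Algebra k K] (v : RVal K) (r : ℕ)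
    (h : Ctx k v r) (V : ValuationSubring K) (hV : ∀ g : K, g ≠ 0 → (g ∈ V ↔ 0 ≤ v g))
    (φ : k →+* V) (hφ : (algebraMap V K).comp φ = algebraMap k K) :
    Function.Surjective ((IsLocalRing.residue V).comp φ) := by
  intro z
  obtain ⟨a, rfl⟩ := IsLocalRing.residue_surjective z
  have ha : v.Ge 0 (a : K) := fun h0 => (hV _ h0).1 a.2
  obtain ⟨c, hc⟩ := h.residue ha
  refine ⟨c, ?_⟩
  have hφc : ((φ c : V) : K) = algebraMap k K c := congrArg (fun ψ => ψ c) hφ
  rw [RingHom.comp_apply, ← sub_eq_zero, ← _root_.map_sub, IsLocalRing.residue_eq_zero_iff,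
    IsLocalRing.mem_maximalIdeal]
  intro hu
  obtain ⟨b, hb⟩ := hu.exists_right_inv
  have hb' : ((φ c : V) : K) - (a : K) ≠ 0 ∧ (b : K) ≠ 0 := by
    have h1 : (((φ c : V) : K) - (a : K)) * (b : K) = 1 := by
      have := congrArg (fun t : V => (t : K)) hb
      simpa using this
    exact ⟨left_ne_zero_of_mul (h1 ▸ one_ne_zero), right_ne_zero_of_mul (h1 ▸ one_ne_zero)⟩
  have h1 : (((φ c : V) : K) - (a : K)) * (b : K) = 1 := by
    have := congrArg (fun t : V => (t : K)) hb
    simpa using this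
  have h2 := v.map_mul hb'.1 hb'.2
  rw [h1, v.map_one] at h2
  have h3 : 0 ≤ v (b : K) := (hV _ hb'.2).1 b.2
  have h4 : 0 < v (((φ c : V) : K) - (a : K)) := by
    have h5 : (a : K) - algebraMap k K c ≠ 0 := by
      rw [← hφc, ← neg_sub]
      exact neg_ne_zero.mpr hb'.1
    rw [hφc, ← neg_sub, v.map_neg _ h5]
    exact hc h5
  linarith

/-- GE1: the centre is a closed point. -/
theorem isClosed_centre (k K : Type) [Field k] [Field K] [Algebra k K] (X : Scheme.{0})
    [IsIntegral X] (f : X ⟶ Spec (CommRingCat.of k)) [LocallyOfFiniteType f]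
    (η : Spec (CommRingCat.of K) ⟶ X)
    (hηf : η ≫ f = Spec.map (CommRingCat.ofHom (algebraMap k K))) (v : RVal K) (r : ℕ)
    (h : Ctx k v r) (V : ValuationSubring K) (hV : ∀ g : K, g ≠ 0 → (g ∈ V ↔ 0 ≤ v g))
    (c : Spec (CommRingCat.of V) ⟶ X) (hc : incV V ≫ c = η) :
    IsClosed ({c (cpt V)} : Set X) := by
  obtain ⟨φ, hφ⟩ := Spec.map_surjective (c ≫ f)
  have hφ2 : (algebraMap V K).comp φ.hom = algebraMap k K := by
    have h1 : Spec.map (φ ≫ CommRingCat.ofHom (algebraMap V K)) =
        Spec.map (CommRingCat.ofHom (algebraMap k K)) := by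
      rw [Spec.map_comp, hφ, ← hηf, ← hc, Category.assoc]
    have h2 := Spec.map_injective h1
    exact congrArg CommRingCat.Hom.hom h2
  have hs := residue_surj k K v r h V hV φ.hom hφ2
  have hJ : JacobsonSpace X := by
    have : JacobsonSpace (Spec (CommRingCat.of k)) := inferInstance
    exact LocallyOfFiniteType.jacobsonSpace f
  have hg : LocallyOfFiniteType
      (Spec.map (CommRingCat.ofHom (IsLocalRing.residue V)) ≫ c) := by
    have h3 : (Spec.map (CommRingCat.ofHom (IsLocalRing.residue V)) ≫ c) ≫ f =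
        Spec.map (φ ≫ CommRingCat.ofHom (IsLocalRing.residue V)) := by
      rw [Category.assoc, ← hφ, Spec.map_comp]
    have h4 : LocallyOfFiniteType
        ((Spec.map (CommRingCat.ofHom (IsLocalRing.residue V)) ≫ c) ≫ f) := by
      rw [h3, HasRingHomProperty.Spec_iff (P := @LocallyOfFiniteType)]
      exact RingHom.FiniteType.of_surjective _ hs
    exact locallyOfFiniteType_of_comp _ f
  obtain ⟨y, hy⟩ : ∃ y : Spec (CommRingCat.of (IsLocalRing.ResidueField V)),
      y = IsLocalRing.closedPoint (IsLocalRing.ResidueField V) := ⟨_, rfl⟩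
  have hy1 : IsClosed ({y} : Set (Spec (CommRingCat.of (IsLocalRing.ResidueField V)))) := by
    rw [hy]
    exact IsLocalRing.isClosed_singleton_closedPoint (IsLocalRing.ResidueField V)
  have hy2 : Spec.map (CommRingCat.ofHom (IsLocalRing.residue V)) y = cpt V := by
    rw [hy]
    exact residue_closedPoint V
  have hcl := (Spec.map (CommRingCat.ofHom (IsLocalRing.residue V)) ≫
    c).closePoints_subset_preimage_closedPoints hy1
  have h6 : IsClosed ({(Spec.map (CommRingCat.ofHom (IsLocalRing.residue V)) ≫ c) y} : Set X) :=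
    hcl
  rw [Scheme.Hom.comp_apply, hy2] at h6
  exact h6

/-- GE1': the centre is not the generic point. -/
theorem centre_ne_generic (k K : Type) [Field k] [Field K] [Algebra k K] (X : Scheme.{0})
    [IsIntegral X] (f : X ⟶ Spec (CommRingCat.of k)) [LocallyOfFiniteType f]
    (η : Spec (CommRingCat.of K) ⟶ X) (hη : IsGen η)
    (hηf : η ≫ f = Spec.map (CommRingCat.ofHom (algebraMap k K))) (v : RVal K) (r : ℕ)
    (h : Ctx k v r) (V : ValuationSubring K) (hV : ∀ g : K, g ≠ 0 → (g ∈ V ↔ 0 ≤ v g))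
    (c : Spec (CommRingCat.of V) ⟶ X) (hc : incV V ≫ c = η) :
    c (cpt V) ≠ genericPoint X := by
  intro hcg
  obtain ⟨e, he⟩ := hη
  -- `c` factors through the stalk at the generic point
  obtain ⟨ψ, hψ⟩ : ∃ ψ : X.functionField ⟶ CommRingCat.of V,
      Spec.map ψ ≫ X.fromSpecStalk (genericPoint X) = c := by
    have h1 := Scheme.Spec_stalkClosedPointTo_fromSpecStalk c
    have h2 : ∀ x : X, c (cpt V) = x → ∃ ψ : X.presheaf.stalk x ⟶ CommRingCat.of V,
        Spec.map ψ ≫ X.fromSpecStalk x = c := by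
      rintro x rfl
      exact ⟨_, h1⟩
    exact h2 _ hcg
  have h3 : Spec.map (ψ ≫ CommRingCat.ofHom (algebraMap V K)) =
      Spec.map (CommRingCat.ofHom e.toRingHom) := by
    rw [← cancel_mono (X.fromSpecStalk (genericPoint X)), Spec.map_comp, Category.assoc, hψ, hc,
      he]
  have h4 : (algebraMap V K).comp ψ.hom = e.toRingHom :=
    congrArg CommRingCat.Hom.hom (Spec.map_injective h3)
  have h5 : ∀ g : K, g ∈ V := by
    intro g
    obtain ⟨x, hx⟩ := e.surjective g
    have h6 : ((ψ.hom x : V) : K) = g := by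
      rw [← hx]
      exact congrArg (fun t => t x) h4
    rw [← h6]
    exact (ψ.hom x).2
  obtain ⟨Y, hY0, hYi, -⟩ := h.rank
  have h7 : v (Y ⟨0, h.rpos⟩) ≠ 0 := hYi.ne_zero ⟨0, h.rpos⟩
  have h8 := (hV _ (hY0 ⟨0, h.rpos⟩)).1 (h5 _)
  have h9 := (hV _ (inv_ne_zero (hY0 ⟨0, h.rpos⟩))).1 (h5 _)
  rw [v.map_inv (hY0 _)] at h9
  exact h7 (le_antisymm (by linarith) h8)

end Pool.Agent.LU1G

end ClosedPart

section OneStepPart

/-!
# GE3: one valuation on an arbitrary scheme
-/

set_option autoImplicit false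

open AlgebraicGeometry CategoryTheory

namespace Pool.Agent.LU1G

open Pool.Agent.H15JM (RVal)
open Pool.Agent.LU1

theorem isIso_restrict_mono {X Y : Scheme.{0}} (f : X ⟶ Y) (W W' : Y.Opens) (hle : W' ≤ W)
    (h : IsIso (f ∣_ W)) : IsIso (f ∣_ W') := by
  have h1 : IsIso ((f ∣_ W) ∣_ (W.ι ⁻¹ᵁ W')) := inferInstance
  have h2 := ((MorphismProperty.isomorphisms Scheme).arrow_mk_iso_iff
    (morphismRestrictRestrict f W (W.ι ⁻¹ᵁ W'))).mp h1
  have h3 : W.ι ''ᵁ W.ι ⁻¹ᵁ W' = W' := by
    rw [Scheme.Hom.image_preimage_eq_opensRange_inf, Scheme.Opens.opensRange_ι]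
    exact inf_eq_right.2 hle
  rw [h3] at h2
  exact h2

theorem smoothAt_of_open {Y Z S : Scheme.{0}} (j : Z ⟶ Y) [IsOpenImmersion j] (g : Y ⟶ S) (z : Z)
    (h : SmoothAt (j ≫ g) z) : SmoothAt g (j z) := by
  obtain ⟨U, hz, hU⟩ := h
  refine ⟨j ''ᵁ U, ⟨z, hz, rfl⟩, ?_⟩
  have h1 : (j ''ᵁ U).ι ≫ g = (j.isoImage U).inv ≫ U.ι ≫ j ≫ g := by
    rw [Scheme.Hom.isoImage_inv_ι_assoc]
  rw [h1]
  have h2 : AlgebraicGeometry.Smooth (U.ι ≫ j ≫ g) := hU
  exact smooth_comp _ _

/-- GE3: one valuation. -/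
theorem one_step (p : ℕ) (hp : p.Prime) (k K : Type) [Field k] [CharP k p] [IsAlgClosed k]
    [Field K] [Algebra k K] (X : Scheme.{0}) [IsIntegral X] (f : X ⟶ Spec (CommRingCat.of k))
    [LocallyOfFiniteType f] (η : Spec (CommRingCat.of K) ⟶ X) (hη : IsGen η)
    (hηf : η ≫ f = Spec.map (CommRingCat.ofHom (algebraMap k K))) (v : RVal K) (r : ℕ)
    (h : Ctx k v r) (V : ValuationSubring K) (hV : ∀ g : K, g ≠ 0 → (g ∈ V ↔ 0 ≤ v g))
    (c : Spec (CommRingCat.of V) ⟶ X) (hc : incV V ≫ c = η) :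
    ∃ (Y : Scheme.{0}) (π : Y ⟶ X), IsIntegral Y ∧ IsProper π ∧
      (∀ W : X.Opens, c (cpt V) ∉ W → IsIso (π ∣_ W)) ∧
      ∃ c' : Spec (CommRingCat.of V) ⟶ Y, c' ≫ π = c ∧ SmoothAt (π ≫ f) (c' (cpt V)) := by
  obtain ⟨U, hU, hcU, -⟩ := exists_isAffineOpen_mem_and_subset (U := ⊤) (x := c (cpt V)) trivial
  obtain ⟨Z, q, hZ, hq, hiso, c', hc', hsm⟩ := open_unif p hp k K X f η hη hηf v r h V hV c hc
    U hU hcU
  have hcl := isClosed_centre k K X f η hηf v r h V hV c hc
  let W : X.Opens := ⟨({c (cpt V)} : Set X)ᶜ, hcl.isOpen_compl⟩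
  have hUW : U ⊔ W = ⊤ := by
    rw [eq_top_iff]
    intro x _
    by_cases hx : x = c (cpt V)
    · exact Or.inl (hx ▸ hcU)
    · exact Or.inr hx
  have hqW : IsIso (q ∣_ (U.ι ⁻¹ᵁ W)) := hiso _ fun w hw hwc => hw hwc
  obtain ⟨Y, π, j, hj, hpb, hπW⟩ := glue X U W hUW Z q hqW
  obtain ⟨hY, hπ⟩ := glue_props U W hUW q π j hpb hπW ⟨_, hcU⟩
    ⟨genericPoint X, fun hg => centre_ne_generic k K X f η hη hηf v r h V hV c hc
      (Set.mem_singleton_iff.1 hg).symm⟩
  refine ⟨Y, π, hY, hπ, fun W' hW' => isIso_restrict_mono π W W' (fun x hx hxc => hW' ?_) hπW,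
    c' ≫ j, ?_, ?_⟩
  · rw [← Set.mem_singleton_iff.1 hxc]; exact hx
  · rw [Category.assoc, hpb.w, hc']
  · have h1 : SmoothAt (j ≫ π ≫ f) (c' (cpt V)) := by
      rw [← Category.assoc, hpb.w, Category.assoc]; exact hsm
    exact smoothAt_of_open j (π ≫ f) (c' (cpt V)) h1

end Pool.Agent.LU1G

end OneStepPart

section ManyPart

/-!
# GG: induction over the valuations
-/

set_option autoImplicit false

open AlgebraicGeometry CategoryTheory

namespace Pool.Agent.LU1G

open Pool.Agent.H15JM (RVal)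
open Pool.Agent.LU1

theorem smoothAt_of_iso {X Y S : Scheme.{0}} (π : Y ⟶ X) (f : X ⟶ S) (y : Y) (W : X.Opens)
    (hW : IsIso (π ∣_ W)) (hy : π y ∈ W) (h : SmoothAt f (π y)) : SmoothAt (π ≫ f) y := by
  obtain ⟨U, hyU, hU⟩ := h
  have h1 : IsIso (π ∣_ (U ⊓ W)) := isIso_restrict_mono π W (U ⊓ W) inf_le_right hW
  refine ⟨π ⁻¹ᵁ (U ⊓ W), ⟨hyU, hy⟩, ?_⟩
  have h2 : (π ⁻¹ᵁ (U ⊓ W)).ι ≫ π ≫ f =
      (π ∣_ (U ⊓ W)) ≫ X.homOfLE (inf_le_left : U ⊓ W ≤ U) ≫ U.ι ≫ f := by
    rw [Scheme.homOfLE_ι_assoc, ← Category.assoc, ← morphismRestrict_ι, Category.assoc]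
  rw [h2]
  have h3 : AlgebraicGeometry.Smooth (U.ι ≫ f) := hU
  infer_instance

theorem isIso_restrict_comp {X Y Z : Scheme.{0}} (f : X ⟶ Y) (g : Y ⟶ Z) (W : Z.Opens)
    (hg : IsIso (g ∣_ W)) (hf : IsIso (f ∣_ (g ⁻¹ᵁ W))) : IsIso ((f ≫ g) ∣_ W) := by
  rw [morphismRestrict_comp]
  exact IsIso.comp_isIso' hf hg

/-- GG: induction over the valuations. -/
theorem many_steps (p : ℕ) (hp : p.Prime) (k K : Type) [Field k] [CharP k p] [IsAlgClosed k]
    [Field K] [Algebra k K] (X : Scheme.{0}) [IsIntegral X] (f : X ⟶ Spec (CommRingCat.of k))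
    [LocallyOfFiniteType f] (η : Spec (CommRingCat.of K) ⟶ X) (hη : IsGen η)
    (hηf : η ≫ f = Spec.map (CommRingCat.ofHom (algebraMap k K))) (m : ℕ)
    (v : Fin m → RVal K) (r : Fin m → ℕ) (h : ∀ i, Ctx k (v i) (r i))
    (V : Fin m → ValuationSubring K) (hV : ∀ i, ∀ g : K, g ≠ 0 → (g ∈ V i ↔ 0 ≤ v i g))
    (c : ∀ i, Spec (CommRingCat.of (V i)) ⟶ X) (hc : ∀ i, incV (V i) ≫ c i = η) :
    ∃ (Y : Scheme.{0}) (π : Y ⟶ X), IsIntegral Y ∧ IsProper π ∧
      (∀ W : X.Opens, (∀ i, c i (cpt (V i)) ∈ W → SmoothAt f (c i (cpt (V i)))) →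
        IsIso (π ∣_ W)) ∧
      ∀ i, ∃ c' : Spec (CommRingCat.of (V i)) ⟶ Y,
        c' ≫ π = c i ∧ SmoothAt (π ≫ f) (c' (cpt (V i))) := by
  induction m with
  | zero =>
    refine ⟨X, 𝟙 X, inferInstance, inferInstance, fun W _ => inferInstance, fun i => i.elim0⟩
  | succ m ih =>
    obtain ⟨Y1, π1, hY1, hπ1, hiso1, hlift1⟩ := ih (fun i => v i.castSucc) (fun i => r i.castSucc)
      (fun i => h i.castSucc) (fun i => V i.castSucc) (fun i => hV i.castSucc)
      (fun i => c i.castSucc) (fun i => hc i.castSucc)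
    have hbirat : ∀ W : X.Opens, (∀ i, c i (cpt (V i)) ∈ W → SmoothAt f (c i (cpt (V i)))) →
        IsIso (π1 ∣_ W) :=
      fun W hW => hiso1 W fun i => hW i.castSucc
    -- an open set containing the generic point and avoiding the centres
    obtain ⟨W0, hW0, hW0c⟩ : ∃ W0 : X.Opens, genericPoint X ∈ W0 ∧ ∀ i, c i (cpt (V i)) ∉ W0 := by
      have hcl : IsClosed (⋃ i : Fin (m + 1), ({c i (cpt (V i))} : Set X)) :=
        isClosed_iUnion_of_finite fun i =>
          isClosed_centre k K X f η hηf (v i) (r i) (h i) (V i) (hV i) (c i) (hc i)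
      refine ⟨⟨_, hcl.isOpen_compl⟩, ?_, fun i hi => ?_⟩
      · change genericPoint X ∈ (⋃ i : Fin (m + 1), ({c i (cpt (V i))} : Set X))ᶜ
        rw [Set.mem_compl_iff, Set.mem_iUnion]
        rintro ⟨i, hi⟩
        exact centre_ne_generic k K X f η hη hηf (v i) (r i) (h i) (V i) (hV i) (c i) (hc i)
          (Set.mem_singleton_iff.1 hi).symm
      · exact hi (Set.mem_iUnion.2 ⟨i, rfl⟩)
    obtain ⟨η1, hη1, hη1g⟩ := IsGen.lift π1 W0 hW0
      (hbirat W0 fun i hi => absurd hi (hW0c i)) η hη
    set i0 : Fin (m + 1) := Fin.last m with hi0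
    obtain ⟨c1, hc1, hc1'⟩ := lift_of_proper π1 (V i0) (c i0) η1 (by rw [hc i0, hη1])
    have hf1 : η1 ≫ π1 ≫ f = Spec.map (CommRingCat.ofHom (algebraMap k K)) := by
      rw [← Category.assoc, hη1, hηf]
    have hlft : LocallyOfFiniteType (π1 ≫ f) := inferInstance
    by_cases hsm : SmoothAt (π1 ≫ f) (c1 (cpt (V i0)))
    · refine ⟨Y1, π1, hY1, hπ1, hbirat, fun i => ?_⟩
      refine Fin.lastCases ?_ (fun j => ?_) i
      · exact ⟨c1, hc1, hsm⟩
      · exact hlift1 j
    · obtain ⟨Y2, π2, hY2, hπ2, hiso2, c2, hc2, hsm2⟩ := one_step p hp k K Y1 (π1 ≫ f) η1 hη1g hf1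
        (v i0) (r i0) (h i0) (V i0) (hV i0) c1 hc1'
      refine ⟨Y2, π2 ≫ π1, hY2, inferInstance, fun W hW => ?_, fun i => ?_⟩
      · refine isIso_restrict_comp π2 π1 W (hbirat W hW) (hiso2 _ fun hmem => hsm ?_)
        have hmem' : π1 (c1 (cpt (V i0))) ∈ W := hmem
        have heq : π1 (c1 (cpt (V i0))) = c i0 (cpt (V i0)) := by rw [← hc1]; rfl
        exact smoothAt_of_iso π1 f _ W (hbirat W hW) hmem' (heq ▸ hW i0 (heq ▸ hmem'))
      · refine Fin.lastCases ?_ (fun j => ?_) i
        · refine ⟨c2, ?_, ?_⟩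
          · rw [← Category.assoc, hc2, hc1]
          · rw [Category.assoc]; exact hsm2
        · obtain ⟨c', hc', U, hU, hUs⟩ := hlift1 j
          have h1 : c1 (cpt (V i0)) ∉ U := fun hmem => hsm ⟨U, hmem, hUs⟩
          obtain ⟨c'', hc'', hs''⟩ := lift_of_iso π2 (π1 ≫ f) (V j.castSucc) c' U hU
            (hiso2 U h1) hUs
          refine ⟨c'', ?_, ?_⟩
          · rw [← Category.assoc, hc'', hc']
          · rw [Category.assoc]; exact hs''

end Pool.Agent.LU1G

end ManyPart

section CtxOfPart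

/-!
# GF: translation of the hypotheses
-/

set_option autoImplicit false

open AlgebraicGeometry CategoryTheory
open scoped NNReal

namespace Pool.Agent.LU1G

open Pool.Agent.H15JM (RVal)
open Pool.Agent.LU1

/-- The transcendence degree of the function field is finite. -/
theorem trdeg_functionField_lt {k : Type} [Field k] {X : Scheme.{0}} [IsIntegral X]
    (f : X ⟶ Spec (CommRingCat.of k)) [LocallyOfFiniteType f] :
    @Algebra.trdeg k X.functionField _ _ (constHom f).toAlgebra < Cardinal.aleph0 := by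
  obtain ⟨U, hU, hxU, -⟩ := exists_isAffineOpen_mem_and_subset
    (x := genericPoint X) (U := ⊤) (Set.mem_univ _)
  have hne : Nonempty U := ⟨⟨_, hxU⟩⟩
  set ψ : CommRingCat.of k ⟶ Γ(X, U) := Spec.preimage (hU.fromSpec ≫ f) with hψ
  have hψf : ψ.hom.FiniteType := by
    have h1 : LocallyOfFiniteType (Spec.map ψ) := by
      rw [hψ, Spec.map_preimage]
      infer_instance
    exact (HasRingHomProperty.Spec_iff (P := @LocallyOfFiniteType)).1 h1
  have hc : constHom f = (algebraMap Γ(X, U) X.functionField).comp ψ.hom := by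
    have h2 : Spec.preimage (X.fromSpecStalk (genericPoint X) ≫ f) =
        ψ ≫ X.presheaf.germ U (genericPoint X) hxU := by
      apply Spec.map_injective
      rw [Spec.map_preimage, Spec.map_comp, hψ, Spec.map_preimage,
        ← hU.fromSpecStalk_eq_fromSpecStalk hxU, IsAffineOpen.fromSpecStalk, Category.assoc]
    unfold constHom
    rw [h2]
    rfl
  let a1 : Algebra k X.functionField := (constHom f).toAlgebra
  let a2 : Algebra k Γ(X, U) := ψ.hom.toAlgebra
  have t : IsScalarTower k Γ(X, U) X.functionField := IsScalarTower.of_algebraMap_eq' hc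
  have ft : Algebra.FiniteType k Γ(X, U) := hψf
  have fr : IsFractionRing Γ(X, U) X.functionField :=
    functionField_isFractionRing_of_isAffineOpen X U hU
  have e1 : Algebra.EssFiniteType Γ(X, U) X.functionField :=
    Algebra.EssFiniteType.of_isLocalization _ (nonZeroDivisors Γ(X, U))
  have e2 : Algebra.EssFiniteType k X.functionField :=
    Algebra.EssFiniteType.comp k Γ(X, U) X.functionField
  exact trdeg_lt_aleph0 k X.functionField

/-- GF: the valuation as a real valuation in the sense of LU1. -/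
theorem exists_ctx {k : Type} [Field k] {X : Scheme.{0}} [IsIntegral X]
    (f : X ⟶ Spec (CommRingCat.of k)) [LocallyOfFiniteType f] (v : Valuation X.functionField ℝ≥0)
    (hv : IsAlmostAbhyankar f v) :
    letI : Algebra k X.functionField := (constHom f).toAlgebra
    ∃ (w : RVal X.functionField) (r : ℕ), Ctx k w r ∧
      ∀ g : X.functionField, g ≠ 0 → (g ∈ v.valuationSubring ↔ 0 ≤ w g) := by
  let a1 : Algebra k X.functionField := (constHom f).toAlgebra
  have hlt : Algebra.trdeg k X.functionField < Cardinal.aleph0 := trdeg_functionField_lt f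
  set S : Set ℝ := {t : ℝ | ∃ g : X.functionField, g ≠ 0 ∧ t = Real.log (v g)} with hS
  have hrank : Module.rank ℚ (Submodule.span ℚ S) + 1 = Algebra.trdeg k X.functionField :=
    hv.rank
  have hvpos : ∀ g : X.functionField, g ≠ 0 → (0 : ℝ) < v g := by
    intro g hg
    have : v g ≠ 0 := (Valuation.ne_zero_iff v).2 hg
    exact_mod_cast pos_iff_ne_zero.2 this
  obtain ⟨b, hbS, hbspan, hbind⟩ := exists_linearIndependent ℚ S
  have hbrank : Module.rank ℚ (Submodule.span ℚ S) = Cardinal.mk b := by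
    rw [← hbspan]
    exact rank_span_set hbind
  have hbfin : Cardinal.mk b < Cardinal.aleph0 := by
    rw [← hbrank]
    refine lt_of_le_of_lt ?_ hlt
    rw [← hrank]
    exact self_le_add_right _ _
  have hfin : Finite b := Cardinal.lt_aleph0_iff_finite.1 hbfin
  have : Fintype b := Fintype.ofFinite b
  set r := Fintype.card b with hr
  have e : Fin r ≃ b := (Fintype.equivFin b).symm
  have hex : ∀ x : b, ∃ g : X.functionField, g ≠ 0 ∧ (x : ℝ) = Real.log (v g) := fun x => hbS x.2
  choose G hG0 hG using hex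
  let w : RVal X.functionField :=
    { toFun := fun g => - Real.log (v g)
      map_mul' := by
        intro x y hx hy
        rw [map_mul, NNReal.coe_mul, Real.log_mul (hvpos x hx).ne' (hvpos y hy).ne']
        ring
      map_add' := by
        intro x y hx hy hxy
        have h := v.map_add x y
        rw [min_le_iff, neg_le_neg_iff, neg_le_neg_iff]
        rcases le_max_iff.1 h with h | h
        · left
          exact Real.log_le_log (hvpos _ hxy) (by exact_mod_cast h)
        · right
          exact Real.log_le_log (hvpos _ hxy) (by exact_mod_cast h) }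
  have hw : ∀ g, w g = - Real.log (v g) := fun g => rfl
  refine ⟨w, r, ?_, ?_⟩
  · have htr : Algebra.trdeg k X.functionField = r + 1 := by
      rw [← hrank, hbrank, Cardinal.mk_fintype]
    have htriv : ∀ c : k, c ≠ 0 → w (algebraMap k X.functionField c) = 0 := by
      intro c hc
      have : v (algebraMap k X.functionField c) = 1 := hv.const c hc
      rw [hw, this, NNReal.coe_one, Real.log_one, neg_zero]
    have hres : ∀ g : X.functionField, g ≠ 0 → w g = 0 →
        ∃ c : k, c ≠ 0 ∧ VPos w (g - algebraMap k X.functionField c) := by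
      intro g hg h0
      have h1 : v g = 1 := by
        rw [hw, neg_eq_zero, Real.log_eq_zero] at h0
        have := hvpos g hg
        rcases h0 with h0 | h0 | h0
        · linarith
        · exact_mod_cast h0
        · linarith
      obtain ⟨c, hc⟩ := hv.residue g h1
      refine ⟨c, ?_, ?_⟩
      · rintro rfl
        rw [map_zero, sub_zero, h1] at hc
        exact lt_irrefl _ hc
      · intro hne
        rw [hw, neg_pos]
        exact Real.log_neg (hvpos _ hne) (by exact_mod_cast hc)
    refine ⟨htriv, hres, ?_, htr, ?_⟩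
    · rw [Nat.pos_iff_ne_zero]
      intro h0
      have hbe : IsEmpty b := by
        rw [hr, Fintype.card_eq_zero_iff] at h0
        exact h0
      have hw0 : ∀ g : X.functionField, g ≠ 0 → w g = 0 := by
        intro g hg
        have h1 : Real.log (v g) ∈ Submodule.span ℚ b := by
          rw [hbspan]
          exact Submodule.subset_span ⟨g, hg, rfl⟩
        rw [Set.isEmpty_coe_sort.1 hbe, Submodule.span_empty, Submodule.mem_bot] at h1
        rw [hw, h1, neg_zero]
      have hsurj : Function.Surjective (algebraMap k X.functionField) := by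
        intro g
        by_cases hg : g = 0
        · exact ⟨0, by rw [hg, map_zero]⟩
        obtain ⟨c, -, hc⟩ := hres g hg (hw0 g hg)
        refine ⟨c, ?_⟩
        by_contra hne
        have h1 : g - algebraMap k X.functionField c ≠ 0 := sub_ne_zero.2 (Ne.symm hne)
        have h2 := hc h1
        rw [hw0 _ h1] at h2
        exact lt_irrefl _ h2
      have halg : Algebra.IsAlgebraic k X.functionField := by
        constructor
        intro g
        obtain ⟨c, rfl⟩ := hsurj g
        exact isAlgebraic_algebraMap c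
      have h0' := trdeg_eq_zero (R := k) (A := X.functionField)
      rw [h0', h0] at htr
      simp at htr
    · refine ⟨fun i => G (e i), fun i => hG0 _, ?_, ?_⟩
      · have h1 : LinearIndependent ℚ fun i : Fin r => ((e i : b) : ℝ) :=
          hbind.comp e e.injective
        have h2 := h1.map' (LinearEquiv.neg ℚ : ℝ ≃ₗ[ℚ] ℝ).toLinearMap
          (LinearEquiv.ker _)
        have h3 : (fun i : Fin r => w (G (e i))) =
            ((LinearEquiv.neg ℚ : ℝ ≃ₗ[ℚ] ℝ).toLinearMap ∘ fun i : Fin r => ((e i : b) : ℝ)) := by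
          funext i
          rw [hw, ← hG]
          rfl
        rw [h3]
        exact h2
      · intro g hg
        have h1 : Real.log (v g) ∈ Submodule.span ℚ b := by
          rw [hbspan]
          exact Submodule.subset_span ⟨g, hg, rfl⟩
        rw [hw]
        apply Submodule.neg_mem
        refine Submodule.span_le.2 ?_ h1
        intro x hx
        have h2 : x = -w (G (e (e.symm ⟨x, hx⟩))) := by
          rw [hw, ← hG, e.apply_symm_apply, neg_neg]
        rw [h2]
        exact Submodule.neg_mem _ (Submodule.subset_span ⟨e.symm ⟨x, hx⟩, rfl⟩)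
  · intro g hg
    rw [hw, neg_nonneg, Valuation.mem_valuationSubring_iff]
    constructor
    · intro h
      exact Real.log_nonpos (hvpos g hg).le (by exact_mod_cast h)
    · intro h
      have := (Real.log_nonpos_iff (hvpos g hg).le).1 h
      exact_mod_cast this

end Pool.Agent.LU1G

end CtxOfPart

section MainPart

/-!
# GZ: the final theorem
-/

set_option autoImplicit false

open AlgebraicGeometry CategoryTheory
open scoped NNReal

namespace Pool.Agent.LU1G

open Pool.Agent.H15JM (RVal)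
open Pool.Agent.LU1

/-- GZ: the final theorem. -/
theorem exists_smooth_centres (p : ℕ) (hp : p.Prime) (k : Type) [Field k] [CharP k p]
    [IsAlgClosed k] (X : Scheme.{0}) [IsIntegral X] (f : X ⟶ Spec (CommRingCat.of k))
    [LocallyOfFiniteType f] (m : ℕ) (v : Fin m → Valuation X.functionField ℝ≥0)
    (hv : ∀ i, IsAlmostAbhyankar f (v i))
    (c : ∀ i, Spec (CommRingCat.of (v i).valuationSubring) ⟶ X)
    (hc : ∀ i, Spec.map (CommRingCat.ofHom (algebraMap (v i).valuationSubring X.functionField)) ≫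
      c i = X.fromSpecStalk (genericPoint X)) :
    ∃ (Y : Scheme.{0}) (π : Y ⟶ X), IsIntegral Y ∧ IsProper π ∧
      (∀ W : X.Opens, (∀ i, c i (IsLocalRing.closedPoint (v i).valuationSubring) ∈ W →
        ∃ U : X.Opens, c i (IsLocalRing.closedPoint (v i).valuationSubring) ∈ U ∧
          Smooth (U.ι ≫ f)) → IsIso (π ∣_ W)) ∧
      ∀ i, ∃ c' : Spec (CommRingCat.of (v i).valuationSubring) ⟶ Y, c' ≫ π = c i ∧
        ∃ U : Y.Opens, c' (IsLocalRing.closedPoint (v i).valuationSubring) ∈ U ∧
          Smooth (U.ι ≫ π ≫ f) := by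
  letI : Algebra k X.functionField := (constHom f).toAlgebra
  have hη : IsGen (K := X.functionField) (X.fromSpecStalk (genericPoint X)) := by
    refine ⟨RingEquiv.refl _, ?_⟩
    have h1 : (CommRingCat.ofHom (RingEquiv.refl X.functionField).toRingHom) =
        𝟙 (CommRingCat.of X.functionField) := rfl
    rw [h1, Spec.map_id]
    exact (Category.id_comp _).symm
  have hηf : X.fromSpecStalk (genericPoint X) ≫ f =
      Spec.map (CommRingCat.ofHom (algebraMap k X.functionField)) := by
    have h1 : CommRingCat.ofHom (algebraMap k X.functionField) =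
        Spec.preimage (X.fromSpecStalk (genericPoint X) ≫ f) := rfl
    rw [h1, Spec.map_preimage]
  choose w r hw hV using fun i => exists_ctx f (v i) (hv i)
  obtain ⟨Y, π, h1, h2, h3, h4⟩ := many_steps p hp k X.functionField X f
    (X.fromSpecStalk (genericPoint X)) hη hηf m w r hw (fun i => (v i).valuationSubring) hV c hc
  exact ⟨Y, π, h1, h2, h3, h4⟩

end Pool.Agent.LU1G

end MainPart
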