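import Pool.Agent.Lib.LU1_h15.Basic
import Pool.Agent.Lib.LU1_h15.QProp
import Pool.Agent.Lib.LU1_h15.Smooth
import Pool.Agent.Lib.LU1_h15.Final

section RingAuxPart

/-!
# GA, part 1: a noetherian frame gives a smooth chart
-/

set_option autoImplicit false

namespace Pool.Agent.LU1G

open Pool.Agent.H15JM (RVal)
open Pool.Agent.LU1

section

variable {k K : Type} [Field k] [Field K] [Algebra k K] {v : RVal K}

/-- Finitely many elements of `locv v S` have a common denominator. -/
theorem exists_common (S : Subalgebra k K) {ι : Type} [Fintype ι] (c : ι → K)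
    (hc : ∀ i, c i ∈ locv v S) : ∃ t ∈ S, t ≠ 0 ∧ v t = 0 ∧ ∀ i, t * c i ∈ S := by
  classical
  choose a ha b hb hb0 hvb hab using hc
  refine ⟨∏ i, b i, S.prod_mem fun i _ => hb i, Finset.prod_ne_zero_iff.2 fun i _ => hb0 i, ?_, ?_⟩
  · rw [v.map_prod _ _ fun i _ => hb0 i]
    exact Finset.sum_eq_zero fun i _ => hvb i
  · intro i
    rw [← Finset.mul_prod_erase Finset.univ b (Finset.mem_univ i), hab i]
    have h1 : b i * (∏ x ∈ Finset.univ.erase i, b x) * (a i / b i) =
        (∏ x ∈ Finset.univ.erase i, b x) * a i := by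
      field_simp [hb0 i]
    rw [h1]
    exact S.mul_mem (S.prod_mem fun i _ => hb i) (ha i)

/-- Inverting one element of a subalgebra of a field. -/
theorem smooth_adjoin_inv (S : Subalgebra k K) (h : S) (h0 : (h : K) ≠ 0)
    (hs : Algebra.Smooth k (Localization.Away h)) :
    Algebra.Smooth k (Algebra.adjoin k ((S : Set K) ∪ {(h : K)⁻¹})) := by
  obtain ⟨B, hB⟩ : ∃ B : Subalgebra k K, B = Algebra.adjoin k ((S : Set K) ∪ {(h : K)⁻¹}) :=
    ⟨_, rfl⟩
  rw [← hB]
  have hle : S ≤ B := fun x hx => hB ▸ Algebra.subset_adjoin (Or.inl hx)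
  have hinv : (h : K)⁻¹ ∈ B := hB ▸ Algebra.subset_adjoin (Or.inr rfl)
  let _ : Algebra S B := (Subalgebra.inclusion hle).toRingHom.toAlgebra
  have hcoe : ∀ s : S, ((algebraMap S B s : B) : K) = s := fun s => rfl
  have hsc : IsScalarTower k S B := IsScalarTower.of_algebraMap_eq fun c => rfl
  have hloc : IsLocalization.Away h B := by
    refine ⟨⟨?_, ?_, ?_⟩⟩
    · rintro ⟨y, n, rfl⟩
      have h1 : IsUnit (algebraMap S B h) := by
        refine IsUnit.of_mul_eq_one ⟨(h : K)⁻¹, hinv⟩ ?_
        apply Subtype.ext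
        change (h : K) * (h : K)⁻¹ = 1
        exact mul_inv_cancel₀ h0
      change IsUnit (algebraMap S B (h ^ n))
      rw [map_pow]
      exact h1.pow n
    · rintro ⟨z, hz⟩
      have key : ∀ z ∈ B, ∃ (s : S) (n : ℕ), z * (h : K) ^ n = s := by
        intro z hz
        rw [hB] at hz
        induction hz using Algebra.adjoin_induction with
        | mem x hx =>
          rcases hx with hx | hx
          · exact ⟨⟨x, hx⟩, 0, by rw [pow_zero, mul_one]⟩
          · refine ⟨1, 1, ?_⟩
            rw [Set.mem_singleton_iff.1 hx, pow_one, inv_mul_cancel₀ h0]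
            rfl
        | algebraMap c => exact ⟨algebraMap k S c, 0, by rw [pow_zero, mul_one]; rfl⟩
        | add x y _ _ hx hy =>
          obtain ⟨s, n, hs⟩ := hx
          obtain ⟨t, m, ht⟩ := hy
          refine ⟨s * h ^ m + t * h ^ n, n + m, ?_⟩
          push_cast
          rw [← hs, ← ht]
          ring
        | mul x y _ _ hx hy =>
          obtain ⟨s, n, hs⟩ := hx
          obtain ⟨t, m, ht⟩ := hy
          refine ⟨s * t, n + m, ?_⟩
          push_cast
          rw [← hs, ← ht]
          ring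
      obtain ⟨s, n, hsn⟩ := key z hz
      refine ⟨(s, ⟨h ^ n, n, rfl⟩), ?_⟩
      apply Subtype.ext
      change z * ((h ^ n : S) : K) = s
      push_cast
      exact hsn
    · intro x y hxy
      refine ⟨1, ?_⟩
      have : (x : K) = y := congrArg (fun b : B => (b : K)) hxy
      rw [Subtype.ext this]
  have e : Localization.Away h ≃ₐ[k] B :=
    (IsLocalization.algEquiv (Submonoid.powers h) (Localization.Away h) B).restrictScalars k
  exact Algebra.Smooth.of_equiv e

/-- If the local ring of `S` at the centre of `v` is a noetherian frame, then `S` is smooth near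
the centre of `v`. -/
theorem exists_smooth_chart {r : ℕ} (h : Ctx k v r) (N : NF k v r) (S : Subalgebra k K)
    (hfg : S.FG) (hNR : N.R = locv v S)
    (hfrac : ∀ g : K, ∃ a ∈ S, ∃ b ∈ S, b ≠ 0 ∧ g = a / b) :
    ∃ t ∈ S, t ≠ 0 ∧ v t = 0 ∧ Algebra.Smooth k (Algebra.adjoin k ((S : Set K) ∪ {t⁻¹})) := by
  classical
  have hle : S ≤ N.R := hNR ▸ le_locv S
  have hS : ∀ s : S, v.Ge 0 (s : K) := fun s => N.nonneg _ (hle s.2)
  -- the centre
  let q : Ideal S :=
    { carrier := {s | VPos v (s : K)}
      add_mem' := fun {a b} ha hb => by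
        change VPos v ((a : K) + b)
        exact VPos.add ha hb
      zero_mem' := VPos.zero
      smul_mem' := fun c x hx => by
        change VPos v ((c : K) * x)
        exact VPos.mul' (hS c) hx }
  have hq : ∀ s : S, s ∈ q ↔ VPos v (s : K) := fun s => Iff.rfl
  have hprime : q.IsPrime := by
    refine ⟨?_, ?_⟩
    · rw [Ideal.ne_top_iff_one, hq]
      intro h1
      have := h1 (by simp)
      simp [v.map_one] at this
    · intro a b hab
      rw [hq] at hab
      rw [hq, hq]
      by_contra hcon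
      push Not at hcon
      obtain ⟨h1, h2⟩ := hcon
      unfold VPos at h1 h2
      push Not at h1 h2
      have hab' : ((a * b : S) : K) = (a : K) * b := rfl
      have h3 := hab (by rw [hab']; exact mul_ne_zero h1.1 h2.1)
      rw [hab', v.map_mul h1.1 h2.1] at h3
      linarith [h1.2, h2.2]
  have hfin : Algebra.FiniteType k S := (Subalgebra.fg_iff_finiteType S).1 hfg
  have hres : ∀ s : S, ∃ c : k, s - algebraMap k S c ∈ q := by
    intro s
    obtain ⟨c, hc⟩ := h.residue (hS s)
    exact ⟨c, hc⟩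
  -- the parameters
  have hx : ∀ i, N.x i ∈ locv v S := fun i => hNR ▸ N.x_mem i
  have hy : N.y ∈ locv v S := hNR ▸ N.y_mem
  choose X hXS D hDS hD0 hvD hXD using hx
  obtain ⟨Y, hYS, E, hES, hE0, hvE, hYE⟩ := hy
  let z : Fin (r + 1) → S := Fin.cons ⟨Y, hYS⟩ fun i => ⟨X i, hXS i⟩
  have hz0 : (z 0 : K) = Y := rfl
  have hzs : ∀ i : Fin r, (z i.succ : K) = X i := fun i => rfl
  have hXeq : ∀ i, X i = N.x i * D i := fun i => by rw [hXD i, div_mul_cancel₀ _ (hD0 i)]
  have hYeq : Y = N.y * E := by rw [hYE, div_mul_cancel₀ _ hE0]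
  have hzq : ∀ i, z i ∈ q := by
    intro i
    rw [hq]
    refine Fin.cases ?_ (fun i => ?_) i
    · rw [hz0, hYeq]
      intro _
      rw [v.map_mul N.y_ne hE0, hvE, add_zero]
      exact N.y_pos
    · rw [hzs, hXeq]
      intro _
      rw [v.map_mul (N.x_ne i) (hD0 i), hvD, add_zero]
      exact N.x_pos i
  have hgen : ∀ s ∈ q, ∃ t, t ∉ q ∧ t * s ∈ Ideal.span (Set.range z) := by
    intro s hs
    obtain ⟨a, ha, b, hb, hsum⟩ := N.gen s (hle s.2) hs
    -- coefficients
    let c : Fin (r + 1) → K := Fin.cons (b / E) fun i => a i / D i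
    have hc : ∀ i, c i ∈ locv v S := by
      intro i
      refine Fin.cases ?_ (fun i => ?_) i
      · change b / E ∈ locv v S
        rw [div_eq_mul_inv]
        exact (locv v S).mul_mem (hNR ▸ hb) (locv_inv (le_locv S hES) hE0 hvE)
      · change a i / D i ∈ locv v S
        rw [div_eq_mul_inv]
        exact (locv v S).mul_mem (hNR ▸ ha i) (locv_inv (le_locv S (hDS i)) (hD0 i) (hvD i))
    obtain ⟨t, htS, ht0, hvt, htc⟩ := exists_common S c hc
    refine ⟨⟨t, htS⟩, ?_, ?_⟩
    · rw [hq]
      intro h1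
      have := h1 ht0
      rw [hvt] at this
      exact lt_irrefl _ this
    · have h1 : (⟨t, htS⟩ : S) * s = ∑ i, (⟨t * c i, htc i⟩ : S) * z i := by
        apply Subtype.ext
        rw [AddSubmonoidClass.coe_finsetSum, Fin.sum_univ_succ]
        change t * (s : K) = t * (b / E) * Y + ∑ i : Fin r, t * (a i / D i) * X i
        rw [hsum, hYeq, mul_add, Finset.mul_sum, add_comm]
        congr 1
        · field_simp
        · refine Finset.sum_congr rfl fun i _ => ?_
          rw [hXeq]
          have := hD0 i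
          field_simp
      rw [h1]
      exact Ideal.sum_mem _ fun i _ => Ideal.mul_mem_left _ _ (Ideal.subset_span ⟨i, rfl⟩)
  -- the transcendence degree
  have htr : ((r + 1 : ℕ) : Cardinal) ≤ Algebra.trdeg k S := by
    have hfs : FaithfulSMul k S :=
      (faithfulSMul_iff_algebraMap_injective k S).2 (algebraMap k S).injective
    have hfK : FaithfulSMul S K :=
      (faithfulSMul_iff_algebraMap_injective S K).2 Subtype.val_injective
    have h1 := _root_.trdeg_add_eq k S (A := K)
    have halg : Algebra.IsAlgebraic S K := ⟨fun g => by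
      obtain ⟨a, ha, b, hb, hb0, rfl⟩ := hfrac g
      have h2 : IsAlgebraic S (algebraMap S K ⟨a, ha⟩) := isAlgebraic_algebraMap _
      have h3 : IsAlgebraic S (algebraMap S K ⟨b, hb⟩) := isAlgebraic_algebraMap _
      rw [div_eq_mul_inv]
      exact h2.mul h3.inv⟩
    have h0 : Algebra.trdeg S K = 0 := _root_.trdeg_eq_zero
    rw [h0, add_zero, h.trdeg] at h1
    rw [h1]
    push_cast
    exact le_rfl
  have hind := algebraicIndependent_of_trdeg q hres z hzq hgen htr
  obtain ⟨t, htq, hts⟩ := exists_smooth_away q hres z hzq hgen hind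
  have ht0 : (t : K) ≠ 0 := by
    intro h0
    apply htq
    rw [hq, h0]
    exact VPos.zero
  refine ⟨t, t.2, ht0, ?_, smooth_adjoin_inv S t ht0 hts⟩
  rw [hq] at htq
  unfold VPos at htq
  push Not at htq
  exact le_antisymm htq.2 (hS t ht0)

end

end Pool.Agent.LU1G

end RingAuxPart

section RingPart

/-!
# GA: the blowing up can be taken with support in the centre (pure algebra)
-/

set_option autoImplicit false

namespace Pool.Agent.LU1G

open Pool.Agent.H15JM (RVal)
open Pool.Agent.LU1

/-- The chart `A[I/g]` as a subalgebra of `K`. -/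
def chartGen {A K : Type} [CommRing A] [Field K] [Algebra A K] (I : Ideal A) (g : A) : Set K :=
  {z | ∃ x ∈ I, z = algebraMap A K x / algebraMap A K g}

theorem ring_unif (p : ℕ) (hp : p.Prime) (k A K : Type) [Field k] [CharP k p] [IsAlgClosed k]
    [CommRing A] [IsDomain A] [Algebra k A] [Algebra.FiniteType k A] [Field K] [Algebra A K]
    [Algebra k K] [IsScalarTower k A K] [IsFractionRing A K] (v : RVal K) (r : ℕ)
    (h : Ctx k v r) (hA : ∀ a : A, v.Ge 0 (algebraMap A K a)) :
    ∃ (I : Ideal A) (g : A), g ∈ I ∧ g ≠ 0 ∧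
      (∀ x ∈ I, v.Ge (v (algebraMap A K g)) (algebraMap A K x)) ∧
      (∀ P : Ideal A, P.IsPrime → I ≤ P → ∀ a : A, VPos v (algebraMap A K a) → a ∈ P) ∧
      ∃ t : K, t ∈ Algebra.adjoin k (chartGen I g) ∧ t ≠ 0 ∧ v t = 0 ∧
        Algebra.Smooth k (Algebra.adjoin k (chartGen I g ∪ {t⁻¹})) := by
  classical
  have hinj : Function.Injective (algebraMap A K) := IsFractionRing.injective A K
  have hne : ∀ {a : A}, a ≠ 0 → algebraMap A K a ≠ 0 := fun ha h0 =>
    ha (hinj (h0.trans (map_zero _).symm))
  -- generators and residues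
  obtain ⟨s, hs⟩ := (inferInstance : Algebra.FiniteType k A).out
  have hres : ∀ a : A, ∃ c : k, VPos v (algebraMap A K (a - algebraMap k A c)) := by
    intro a
    obtain ⟨c, hc⟩ := h.residue (hA a)
    refine ⟨c, ?_⟩
    rw [map_sub, ← IsScalarTower.algebraMap_apply]
    exact hc
  choose c hc using hres
  obtain ⟨τ, hτ⟩ : ∃ τ : A → A, ∀ a, τ a = a - algebraMap k A (c a) := ⟨_, fun _ => rfl⟩
  have hτpos : ∀ a, VPos v (algebraMap A K (τ a)) := fun a => by rw [hτ]; exact hc a
  let m : Ideal A := Ideal.span (τ '' (s : Set A))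
  have hmod : ∀ a : A, ∃ d : k, a - algebraMap k A d ∈ m := by
    intro a
    have ha : a ∈ Algebra.adjoin k (s : Set A) := by rw [hs]; exact Algebra.mem_top
    induction ha using Algebra.adjoin_induction with
    | mem x hx =>
      refine ⟨c x, ?_⟩
      rw [← hτ]
      exact Ideal.subset_span ⟨x, hx, rfl⟩
    | algebraMap d => exact ⟨d, by rw [sub_self]; exact m.zero_mem⟩
    | add x y _ _ hx hy =>
      obtain ⟨d, hd⟩ := hx
      obtain ⟨e, he⟩ := hy
      refine ⟨d + e, ?_⟩
      have : x + y - algebraMap k A (d + e) = (x - algebraMap k A d) + (y - algebraMap k A e) := by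
        rw [map_add]; ring
      rw [this]
      exact m.add_mem hd he
    | mul x y _ _ hx hy =>
      obtain ⟨d, hd⟩ := hx
      obtain ⟨e, he⟩ := hy
      refine ⟨d * e, ?_⟩
      have : x * y - algebraMap k A (d * e) =
          y * (x - algebraMap k A d) + algebraMap k A d * (y - algebraMap k A e) := by
        rw [map_mul]; ring
      rw [this]
      exact m.add_mem (m.mul_mem_left _ hd) (m.mul_mem_left _ he)
  have hmpos : ∀ a ∈ m, VPos v (algebraMap A K a) := by
    intro a ha
    induction ha using Submodule.span_induction with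
    | mem y hy =>
      obtain ⟨x, -, rfl⟩ := hy
      exact hτpos x
    | zero => rw [map_zero]; exact VPos.zero
    | add y y' _ _ h1 h2 => rw [map_add]; exact h1.add h2
    | smul a y _ h1 =>
      rw [smul_eq_mul, map_mul]
      exact VPos.mul' (hA a) h1
  have hposm : ∀ a : A, VPos v (algebraMap A K a) → a ∈ m := by
    intro a ha
    obtain ⟨d, hd⟩ := hmod a
    have h1 : VPos v (algebraMap k K d) := by
      have h2 := ha.sub (hmpos _ hd)
      rw [map_sub, sub_sub_cancel, ← IsScalarTower.algebraMap_apply] at h2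
      exact h2
    have h3 := h.const_eq_zero h1
    rwa [h3, map_zero, sub_zero] at hd
  -- local uniformization
  let A₀ : Finset K := s.image (algebraMap A K)
  have hA₀ : ∀ z : K, z ∈ Algebra.adjoin k (A₀ : Set K) ↔ ∃ a : A, algebraMap A K a = z := by
    intro z
    have h1 : Algebra.adjoin k (A₀ : Set K) = (IsScalarTower.toAlgHom k A K).range := by
      rw [← Algebra.map_top, ← hs, AlgHom.map_adjoin]
      congr 1
      rw [Finset.coe_image]
      rfl
    rw [h1]
    exact Iff.rfl
  obtain ⟨N, g₀, hg₀, hg₀0, hmono, G, hG, hNR, hT, -, -⟩ :=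
    local_unif k K p hp v r h A₀
      (by
        intro a ha
        obtain ⟨b, -, rfl⟩ := Finset.mem_image.1 ha
        exact hA b)
      (by
        intro g
        obtain ⟨a, b, hb, rfl⟩ := IsFractionRing.div_surjective (A := A) g
        exact ⟨_, (hA₀ _).2 ⟨a, rfl⟩, _, (hA₀ _).2 ⟨b, rfl⟩,
          hne (nonZeroDivisors.ne_zero hb), rfl⟩)
      ((s.image fun a => algebraMap A K (τ a)).filter fun t => t ≠ 0)
      (by
        intro t ht
        exact (Finset.mem_filter.1 ht).2)
  obtain ⟨g, rfl⟩ := (hA₀ _).1 hg₀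
  have hg0 : g ≠ 0 := by
    rintro rfl
    exact hg₀0 (map_zero _)
  have hANR : ∀ a : A, algebraMap A K a ∈ N.R := by
    intro a
    rw [hNR]
    exact le_locv _ (Algebra.adjoin_mono Set.subset_union_left ((hA₀ _).2 ⟨a, rfl⟩))
  have hGNR : ∀ x ∈ G, x / algebraMap A K g ∈ N.R := by
    intro x hx
    rw [hNR]
    exact le_locv _ (Algebra.subset_adjoin (Or.inr ⟨x, hx, rfl⟩))
  -- powers of `m`
  let w : K := ∏ i, N.x i
  have hw0 : w ≠ 0 := Finset.prod_ne_zero_iff.2 fun i _ => N.x_ne i
  have hτw : ∀ a ∈ s, algebraMap A K (τ a) / w ∈ N.R := by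
    intro a ha
    by_cases h0 : algebraMap A K (τ a) = 0
    · rw [h0, zero_div]
      exact N.R.zero_mem
    obtain ⟨n, u, hu0, huR, -, heq, hpos, -, -⟩ := hT (algebraMap A K (τ a))
      (Finset.mem_filter.2 ⟨Finset.mem_image.2 ⟨a, ha, rfl⟩, h0⟩)
    have hn := hpos (hτpos a h0)
    have h1 : algebraMap A K (τ a) / w = (∏ i, N.x i ^ (n i - 1).toNat) * u := by
      rw [heq, mul_div_right_comm, ← Finset.prod_div_distrib]
      congr 1
      refine Finset.prod_congr rfl fun i _ => ?_
      have h2 : n i = ((n i - 1).toNat : ℤ) + 1 := by have := hn i; omega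
      rw [div_eq_iff (N.x_ne i)]
      conv_lhs => rw [h2]
      rw [zpow_add_one₀ (N.x_ne i), zpow_natCast]
    rw [h1]
    exact N.R.mul_mem (N.R.prod_mem fun i _ => N.R.pow_mem (N.x_mem i) _) huR
  let J : ℕ → Ideal A := fun n =>
    { carrier := {a | algebraMap A K a / w ^ n ∈ N.R}
      add_mem' := fun {a b} ha hb => by
        change algebraMap A K (a + b) / w ^ n ∈ N.R
        rw [map_add, add_div]
        exact N.R.add_mem ha hb
      zero_mem' := by
        change algebraMap A K 0 / w ^ n ∈ N.R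
        rw [map_zero, zero_div]
        exact N.R.zero_mem
      smul_mem' := fun a b hb => by
        change algebraMap A K (a * b) / w ^ n ∈ N.R
        rw [map_mul, mul_div_assoc]
        exact N.R.mul_mem (hANR a) hb }
  have hJ : ∀ n a, a ∈ J n ↔ algebraMap A K a / w ^ n ∈ N.R := fun n a => Iff.rfl
  have hm1 : ∀ a ∈ m, algebraMap A K a / w ∈ N.R := by
    have : m ≤ J 1 := by
      refine Ideal.span_le.2 ?_
      rintro _ ⟨a, ha, rfl⟩
      change τ a ∈ J 1
      rw [hJ, pow_one]
      exact hτw a ha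
    intro a ha
    have := this ha
    rwa [hJ, pow_one] at this
  have hmn : ∀ n, m ^ n ≤ J n := by
    intro n
    induction n with
    | zero =>
      intro a _
      rw [hJ, pow_zero, div_one]
      exact hANR a
    | succ n ih =>
      rw [pow_succ]
      refine Ideal.mul_le.2 fun a ha b hb => ?_
      rw [hJ, map_mul, pow_succ, mul_div_mul_comm]
      exact N.R.mul_mem (ih ha) (hm1 b hb)
  -- the exponent
  obtain ⟨n, u, hu0, huR, huR', heq, -, -, -⟩ := hmono
  obtain ⟨M, hM⟩ : ∃ M : ℕ, ∀ i, n i ≤ M := by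
    refine ⟨∑ i, (n i).toNat, fun i => ?_⟩
    have h1 : (n i).toNat ≤ ∑ i, (n i).toNat :=
      Finset.single_le_sum (f := fun i => (n i).toNat) (fun _ _ => Nat.zero_le _)
        (Finset.mem_univ i)
    have h2 := Int.self_le_toNat (n i)
    exact h2.trans (by exact_mod_cast h1)
  have hwg : w ^ M / algebraMap A K g ∈ N.R := by
    have h1 : w ^ M / algebraMap A K g = (∏ i, N.x i ^ ((M : ℤ) - n i).toNat) * u⁻¹ := by
      rw [heq, ← div_div, div_eq_mul_inv _ u, ← Finset.prod_pow, ← Finset.prod_div_distrib]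
      congr 1
      refine Finset.prod_congr rfl fun i _ => ?_
      have h2 : (M : ℤ) = (((M : ℤ) - n i).toNat : ℤ) + n i := by have := hM i; omega
      rw [div_eq_iff (zpow_ne_zero _ (N.x_ne i)), ← zpow_natCast, ← zpow_natCast,
        ← zpow_add₀ (N.x_ne i), ← h2]
    rw [h1]
    exact N.R.mul_mem (N.R.prod_mem fun i _ => N.R.pow_mem (N.x_mem i) _) huR'
  -- the ideal
  choose! γ hγ using fun x (hx : x ∈ G) => (hA₀ x).1 (hG x hx).1
  let I : Ideal A := (Ideal.span {g} ⊔ Ideal.span (γ '' (G : Set K))) ⊔ m ^ M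
  have hgI : g ∈ I :=
    Ideal.mem_sup_left (Ideal.mem_sup_left (Ideal.subset_span (Set.mem_singleton g)))
  let Q : Ideal A :=
    { carrier := {a | algebraMap A K a / algebraMap A K g ∈ N.R}
      add_mem' := fun {a b} ha hb => by
        change algebraMap A K (a + b) / algebraMap A K g ∈ N.R
        rw [map_add, add_div]
        exact N.R.add_mem ha hb
      zero_mem' := by
        change algebraMap A K 0 / algebraMap A K g ∈ N.R
        rw [map_zero, zero_div]
        exact N.R.zero_mem
      smul_mem' := fun a b hb => by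
        change algebraMap A K (a * b) / algebraMap A K g ∈ N.R
        rw [map_mul, mul_div_assoc]
        exact N.R.mul_mem (hANR a) hb }
  have hQ : ∀ a, a ∈ Q ↔ algebraMap A K a / algebraMap A K g ∈ N.R := fun a => Iff.rfl
  have hIQ : I ≤ Q := by
    refine sup_le (sup_le ?_ ?_) ?_
    · refine Ideal.span_le.2 ?_
      rintro _ rfl
      change _ ∈ Q
      rw [hQ, div_self hg₀0]
      exact N.R.one_mem
    · refine Ideal.span_le.2 ?_
      rintro _ ⟨x, hx, rfl⟩
      change _ ∈ Q
      rw [hQ, hγ x hx]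
      exact hGNR x hx
    · intro a ha
      rw [hQ]
      have h1 : algebraMap A K a / algebraMap A K g =
          (algebraMap A K a / w ^ M) * (w ^ M / algebraMap A K g) := by
        have := pow_ne_zero M hw0
        field_simp
      rw [h1]
      exact N.R.mul_mem (hmn M ha) hwg
  refine ⟨I, g, hgI, hg0, ?_, ?_, ?_⟩
  · intro x hx hx0
    have h1 := N.nonneg _ (hIQ hx) (div_ne_zero hx0 hg₀0)
    rw [v.map_div hx0 hg₀0] at h1
    linarith
  · intro P hP hIP a ha
    have h1 : m ^ M ≤ P := le_sup_right.trans hIP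
    exact hP.le_of_pow_le h1 (hposm a ha)
  -- the chart
  let S : Subalgebra k K := Algebra.adjoin k (chartGen I g)
  have hIS : ∀ x ∈ I, algebraMap A K x / algebraMap A K g ∈ S := fun x hx =>
    Algebra.subset_adjoin ⟨x, hx, rfl⟩
  have hAS : ∀ a : A, algebraMap A K a ∈ S := by
    intro a
    have h1 := hIS (a * g) (I.mul_mem_left a hgI)
    rwa [map_mul, mul_div_cancel_right₀ _ hg₀0] at h1
  have hSN : S ≤ N.R := by
    refine Algebra.adjoin_le ?_
    rintro _ ⟨x, hx, rfl⟩
    exact hIQ hx
  have hlocN : ∀ f ∈ N.R, f ≠ 0 → v f = 0 → f⁻¹ ∈ N.R := by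
    intro f hf hf0 hvf
    rw [hNR] at hf ⊢
    exact locv_inv hf hf0 hvf
  have hNS : N.R = locv v S := by
    refine le_antisymm ?_ (locv_le hSN hlocN)
    rw [hNR]
    refine locv_mono (Algebra.adjoin_le ?_)
    rintro z (hz | ⟨x, hx, rfl⟩)
    · obtain ⟨a, -, rfl⟩ := Finset.mem_image.1 hz
      exact hAS a
    · have h1 := hIS (γ x)
        (Ideal.mem_sup_left (Ideal.mem_sup_right (Ideal.subset_span ⟨x, hx, rfl⟩)))
      rwa [hγ x hx] at h1
  have hfg : S.FG := by
    have : IsNoetherianRing A := Algebra.FiniteType.isNoetherianRing k A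
    obtain ⟨F, hF⟩ := (isNoetherianRing_iff_ideal_fg A).1 this I
    have hS : S = Algebra.adjoin k ((A₀ : Set K) ∪
        (fun x => algebraMap A K x / algebraMap A K g) '' (F : Set A)) := by
      refine le_antisymm (Algebra.adjoin_le ?_) (Algebra.adjoin_le ?_)
      · rintro _ ⟨x, hx, rfl⟩
        change _ ∈ Algebra.adjoin k _
        rw [← hF] at hx
        induction hx using Submodule.span_induction with
        | mem y hy => exact Algebra.subset_adjoin (Or.inr ⟨y, hy, rfl⟩)
        | zero =>
          rw [map_zero, zero_div]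
          exact Subalgebra.zero_mem _
        | add y y' _ _ h1 h2 =>
          rw [map_add, add_div]
          exact Subalgebra.add_mem _ h1 h2
        | smul a y _ h1 =>
          rw [smul_eq_mul, map_mul, mul_div_assoc]
          exact Subalgebra.mul_mem _
            (Algebra.adjoin_mono Set.subset_union_left ((hA₀ _).2 ⟨a, rfl⟩)) h1
      · rintro z (hz | ⟨x, hx, rfl⟩)
        · obtain ⟨a, -, rfl⟩ := Finset.mem_image.1 hz
          exact hAS a
        · exact hIS x (hF ▸ Ideal.subset_span hx)
    refine ⟨A₀ ∪ F.image fun x => algebraMap A K x / algebraMap A K g, ?_⟩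
    rw [hS, Finset.coe_union, Finset.coe_image (s := F)]
  have hfrac : ∀ g : K, ∃ a ∈ S, ∃ b ∈ S, b ≠ 0 ∧ g = a / b := by
    intro z
    obtain ⟨a, b, hb, rfl⟩ := IsFractionRing.div_surjective (A := A) z
    exact ⟨_, hAS a, _, hAS b, hne (nonZeroDivisors.ne_zero hb), rfl⟩
  obtain ⟨t, htS, ht0, hvt, hsm⟩ := exists_smooth_chart h N S hfg hNS hfrac
  refine ⟨t, htS, ht0, hvt, ?_⟩
  have h1 : Algebra.adjoin k (chartGen I g ∪ {t⁻¹}) =
      Algebra.adjoin k ((S : Set K) ∪ {t⁻¹}) := by
    refine le_antisymm (Algebra.adjoin_mono (Set.union_subset_union_left _ Algebra.subset_adjoin))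
      (Algebra.adjoin_le ?_)
    rintro z (hz | hz)
    · exact Algebra.adjoin_mono Set.subset_union_left hz
    · exact Algebra.subset_adjoin (Or.inr hz)
  rw [h1]
  exact hsm

end Pool.Agent.LU1G

end RingPart
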